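import Pool.Agent.H94.Stab.Defs

set_option autoImplicit false

open MeasureTheory Set Filter Topology
open scoped ContDiff

namespace Pool.Agent.H94.Stab

theorem weak_compact {H : Type*} [NormedAddCommGroup H] [InnerProductSpace ℝ H] [CompleteSpace H]
    [TopologicalSpace.SeparableSpace H] (v : ℕ → H) (C : ℝ) (hC : ∀ k, ‖v k‖ ≤ C) :
    ∃ φ : ℕ → ℕ, StrictMono φ ∧ ∃ w : H, ∀ z : H,
      Tendsto (fun k => inner ℝ (v (φ k)) z) atTop (𝓝 (inner ℝ w z)) := by
  classical
  have hseq := WeakDual.isSeqCompact_closedBall ℝ H (0 : StrongDual ℝ H) C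
  obtain ⟨a, -, φ, hφ, hlim⟩ := hseq (x := fun k =>
    StrongDual.toWeakDual (InnerProductSpace.toDual ℝ H (v k))) (by
      intro k
      simp only [Set.mem_preimage, Metric.mem_closedBall, dist_zero_right]
      have : ‖InnerProductSpace.toDual ℝ H (v k)‖ = ‖v k‖ := by simp
      calc ‖InnerProductSpace.toDual ℝ H (v k)‖ = ‖v k‖ := this
        _ ≤ C := hC k)
  refine ⟨φ, hφ, (InnerProductSpace.toDual ℝ H).symm (WeakDual.toStrongDual a), fun z => ?_⟩
  have h1 : Tendsto (fun k => (StrongDual.toWeakDual (InnerProductSpace.toDual ℝ H (v (φ k)))) z)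
      atTop (𝓝 (a z)) := ((WeakDual.eval_continuous z).tendsto a).comp hlim
  have h2 : inner ℝ ((InnerProductSpace.toDual ℝ H).symm (WeakDual.toStrongDual a)) z = a z := by
    rw [InnerProductSpace.toDual_symm_apply]
    rfl
  rw [h2]
  refine h1.congr fun k => ?_
  change (InnerProductSpace.toDual ℝ H (v (φ k))) z = _
  rw [InnerProductSpace.toDual_apply_apply]

namespace SW

variable {n : ℕ}

/-! ### Hilbert space part -/

theorem hilbert_part {H : Type*} [NormedAddCommGroup H] [InnerProductSpace ℝ H]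
    (f g : ℕ → H) (f₀ g₀ : H) (δ : ℝ) (hδ : 0 ≤ δ)
    (hg : Tendsto g atTop (𝓝 g₀))
    (hf : ∀ z : H, Tendsto (fun k => inner ℝ (f k) z) atTop (𝓝 (inner ℝ f₀ z)))
    (hfg : ∀ᶠ k in atTop, ‖f k - g k‖ ≤ δ) (hδ' : 0 < δ) :
    ∀ᶠ k in atTop, ‖f k - f₀‖ ≤ 3 * δ := by
  have h0 : ‖f₀ - g₀‖ ≤ δ := by
    have h1 : Tendsto (fun k => inner ℝ (f k - g k) (f₀ - g₀)) atTop
        (𝓝 (inner ℝ (f₀ - g₀) (f₀ - g₀))) := by
      have h2 : Tendsto (fun k => inner ℝ (g k) (f₀ - g₀)) atTop (𝓝 (inner ℝ g₀ (f₀ - g₀))) :=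
        hg.inner tendsto_const_nhds
      have h3 := (hf (f₀ - g₀)).sub h2
      simpa only [← inner_sub_left] using h3
    have h4 : inner ℝ (f₀ - g₀) (f₀ - g₀) ≤ δ * ‖f₀ - g₀‖ := by
      refine le_of_tendsto h1 ?_
      filter_upwards [hfg] with k hk
      calc inner ℝ (f k - g k) (f₀ - g₀) ≤ ‖f k - g k‖ * ‖f₀ - g₀‖ := real_inner_le_norm _ _
        _ ≤ δ * ‖f₀ - g₀‖ := by gcongr
    rw [real_inner_self_eq_norm_mul_norm] at h4
    by_contra hcon
    push Not at hcon
    have : 0 < ‖f₀ - g₀‖ := lt_trans hδ' hcon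
    nlinarith
  have h5 : ∀ᶠ k in atTop, ‖g k - g₀‖ ≤ δ := by
    have := (Metric.tendsto_nhds.1 hg) δ hδ'
    filter_upwards [this] with k hk
    rw [dist_eq_norm] at hk
    exact hk.le
  filter_upwards [hfg, h5] with k h6 h7
  calc ‖f k - f₀‖ = ‖(f k - g k) + (g k - g₀) - (f₀ - g₀)‖ := by congr 1; abel
    _ ≤ ‖(f k - g k) + (g k - g₀)‖ + ‖f₀ - g₀‖ := norm_sub_le _ _
    _ ≤ ‖f k - g k‖ + ‖g k - g₀‖ + ‖f₀ - g₀‖ := by gcongr; exact norm_add_le _ _
    _ ≤ 3 * δ := by linarith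

/-! ### Averages -/

theorem jensen {Ω : Type*} [MeasurableSpace Ω] (ν : Measure Ω) [IsProbabilityMeasure ν]
    (f : Ω → ℝ) (hf : MemLp f 2 ν) : (∫ x, f x ∂ν) ^ 2 ≤ ∫ x, f x ^ 2 ∂ν := by
  set m := ∫ x, f x ∂ν
  have hi : Integrable f ν := hf.integrable (by norm_num)
  have hi2 : Integrable (fun x => f x ^ 2) ν := hf.integrable_sq
  have h1 : 0 ≤ ∫ x, (f x - m) ^ 2 ∂ν := integral_nonneg fun x => sq_nonneg _
  have h2 : ∫ x, (f x - m) ^ 2 ∂ν = (∫ x, f x ^ 2 ∂ν) - m ^ 2 := by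
    have : ∀ x, (f x - m) ^ 2 = f x ^ 2 - 2 * m * f x + m ^ 2 := fun x => by ring
    simp_rw [this]
    have e1 : ∫ x, (f x ^ 2 - 2 * m * f x + m ^ 2) ∂ν =
        (∫ x, (f x ^ 2 - 2 * m * f x) ∂ν) + ∫ _x, m ^ 2 ∂ν :=
      integral_add (hi2.sub (hi.const_mul _)) (integrable_const _)
    have e2 : ∫ x, (f x ^ 2 - 2 * m * f x) ∂ν = (∫ x, f x ^ 2 ∂ν) - ∫ x, 2 * m * f x ∂ν :=
      integral_sub hi2 (hi.const_mul _)
    rw [e1, e2, integral_const_mul]
    simp only [integral_const, probReal_univ, smul_eq_mul, one_mul]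
    change _ - 2 * m * m + m ^ 2 = _
    ring
  linarith

/-- normalised volume on a ball around `0` -/
noncomputable def nuB (n : ℕ) (ρ : ℝ) : Measure (E n) :=
  (volume (Metric.ball (0 : E n) ρ))⁻¹ • volume.restrict (Metric.ball 0 ρ)

theorem nuB_prob {ρ : ℝ} (hρ : 0 < ρ) : IsProbabilityMeasure (nuB n ρ) := by
  constructor
  have h1 : volume (Metric.ball (0 : E n) ρ) ≠ 0 := (Metric.measure_ball_pos _ _ hρ).ne'
  have h2 : volume (Metric.ball (0 : E n) ρ) ≠ ⊤ := measure_ball_lt_top.ne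
  simp only [nuB, Measure.smul_apply, Measure.restrict_apply MeasurableSet.univ, univ_inter,
    smul_eq_mul]
  exact ENNReal.inv_mul_cancel h1 h2

/-- average of `q` over `x + B_ρ` -/
noncomputable def av (ρ : ℝ) (q : E n → ℝ) (x : E n) : ℝ := ∫ h, q (x + h) ∂(nuB n ρ)

/-- kernel of the average -/
noncomputable def zk (ρ : ℝ) (x : E n) : E n → ℝ :=
  (Metric.ball x ρ).indicator fun _ => ((volume (Metric.ball (0 : E n) ρ)).toReal)⁻¹

theorem memLp_zk (ρ : ℝ) (x : E n) : MemLp (zk ρ x) 2 volume := by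
  unfold zk
  exact memLp_indicator_const 2 measurableSet_ball _ (Or.inr measure_ball_lt_top.ne)

theorem av_eq (ρ : ℝ) (q : E n → ℝ) (x : E n) : av ρ q x = ∫ y, q y * zk ρ x y := by
  unfold av nuB zk
  rw [integral_smul_measure]
  have h1 : ∫ y, q y * (Metric.ball x ρ).indicator
      (fun _ => ((volume (Metric.ball (0 : E n) ρ)).toReal)⁻¹) y =
      ∫ y, (Metric.ball x ρ).indicator
        (fun y => ((volume (Metric.ball (0 : E n) ρ)).toReal)⁻¹ * q y) y := by
    congr 1
    ext y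
    by_cases hy : y ∈ Metric.ball x ρ
    · simp [hy]; ring
    · simp [hy]
  rw [h1, integral_indicator measurableSet_ball, integral_const_mul, ENNReal.toReal_inv,
    smul_eq_mul]
  congr 1
  rw [← integral_indicator measurableSet_ball, ← integral_indicator measurableSet_ball]
  have h2 := integral_add_left_eq_self (μ := (volume : Measure (E n)))
    (fun y => (Metric.ball x ρ).indicator q y) x
  rw [← h2]
  congr 1
  ext y
  by_cases hy : y ∈ Metric.ball (0 : E n) ρ
  · have : x + y ∈ Metric.ball x ρ := by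
      simpa [Metric.mem_ball, dist_eq_norm] using hy
    rw [Set.indicator_of_mem hy, Set.indicator_of_mem this]
  · have : x + y ∉ Metric.ball x ρ := by
      simpa [Metric.mem_ball, dist_eq_norm] using hy
    rw [Set.indicator_of_notMem hy, Set.indicator_of_notMem this]

theorem av_congr (ρ : ℝ) {q q' : E n → ℝ} (h : q =ᵐ[volume] q') : av ρ q = av ρ q' := by
  ext x
  rw [av_eq, av_eq]
  apply integral_congr_ae
  filter_upwards [h] with y hy
  rw [hy]

theorem memLp_shift {q : E n → ℝ} (hq : MemLp q 2 volume) (x : E n) :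
    MemLp (fun h => q (x + h)) 2 volume :=
  hq.comp_measurePreserving (measurePreserving_add_left volume x)

theorem memLp_nuB {g : E n → ℝ} (hg : MemLp g 2 volume) {ρ : ℝ} (hρ : 0 < ρ) :
    MemLp g 2 (nuB n ρ) := by
  unfold nuB
  refine (hg.restrict _).smul_measure ?_
  exact ENNReal.inv_ne_top.2 (Metric.measure_ball_pos _ _ hρ).ne'

/-- main estimate, measurable representative -/
theorem av_est {q : E n → ℝ} (hqm : Measurable q) (hq : MemLp q 2 volume) {ρ ε : ℝ} (hρ : 0 < ρ)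
    (h : ∀ y : E n, ‖y‖ ≤ ρ → ∫ x, (q (x + y) - q x) ^ 2 ≤ ε) :
    MemLp (fun x => q x - av ρ q x) 2 volume ∧ ∫ x, (q x - av ρ q x) ^ 2 ≤ ε := by
  haveI := nuB_prob (n := n) hρ
  have hε : 0 ≤ ε := le_trans (integral_nonneg fun x => sq_nonneg _) (h 0 (by simpa using hρ.le))
  -- measurability of the average
  have hmeas : Measurable fun p : E n × E n => q (p.1 + p.2) :=
    hqm.comp (measurable_fst.add measurable_snd)
  have havm : StronglyMeasurable (av ρ q) := by
    unfold av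
    exact (hmeas.stronglyMeasurable).integral_prod_right
  have hd : StronglyMeasurable fun x => q x - av ρ q x := hqm.stronglyMeasurable.sub havm
  -- pointwise Jensen
  have hpt : ∀ x, (q x - av ρ q x) ^ 2 ≤ ∫ y, (q (x + y) - q x) ^ 2 ∂(nuB n ρ) := by
    intro x
    have h1 : MemLp (fun y => q (x + y) - q x) 2 (nuB n ρ) :=
      (memLp_nuB (memLp_shift hq x) hρ).sub (memLp_const _)
    have h2 := jensen (nuB n ρ) _ h1
    have h3 : ∫ y, (q (x + y) - q x) ∂(nuB n ρ) = av ρ q x - q x := by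
      rw [integral_sub ((memLp_nuB (memLp_shift hq x) hρ).integrable (by norm_num))
        (integrable_const _)]
      simp [av]
    rw [h3] at h2
    calc (q x - av ρ q x) ^ 2 = (av ρ q x - q x) ^ 2 := by ring
      _ ≤ _ := h2
  -- lintegral version
  have hlin : ∫⁻ x, ENNReal.ofReal ((q x - av ρ q x) ^ 2) ≤ ENNReal.ofReal ε := by
    calc ∫⁻ x, ENNReal.ofReal ((q x - av ρ q x) ^ 2)
        ≤ ∫⁻ x, ∫⁻ y, ENNReal.ofReal ((q (x + y) - q x) ^ 2) ∂(nuB n ρ) := by
          refine lintegral_mono fun x => ?_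
          refine (ENNReal.ofReal_le_ofReal (hpt x)).trans ?_
          rw [ofReal_integral_eq_lintegral_ofReal]
          · exact ((memLp_nuB (memLp_shift hq x) hρ).sub (memLp_const _)).integrable_sq
          · exact ae_of_all _ fun y => sq_nonneg _
      _ = ∫⁻ y, ∫⁻ x, ENNReal.ofReal ((q (x + y) - q x) ^ 2) ∂volume ∂(nuB n ρ) := by
          rw [lintegral_lintegral_swap]
          apply Measurable.aemeasurable
          apply ENNReal.measurable_ofReal.comp
          exact ((hmeas.sub (hqm.comp measurable_fst)).pow_const 2)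
      _ ≤ ∫⁻ _y, ENNReal.ofReal ε ∂(nuB n ρ) := by
          apply lintegral_mono_ae
          have hmem : ∀ᵐ y ∂(nuB n ρ), y ∈ Metric.ball (0 : E n) ρ := by
            unfold nuB
            apply Measure.ae_smul_measure
            exact ae_restrict_mem measurableSet_ball
          filter_upwards [hmem] with y hy
          have hy' : ‖y‖ ≤ ρ := by
            have : ‖y‖ < ρ := by simpa [Metric.mem_ball, dist_eq_norm] using hy
            exact this.le
          rw [← ofReal_integral_eq_lintegral_ofReal]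
          · exact ENNReal.ofReal_le_ofReal (h y hy')
          · have h1 : MemLp (fun x => q (x + y)) 2 volume :=
              hq.comp_measurePreserving (measurePreserving_add_right volume y)
            exact (h1.sub hq).integrable_sq
          · exact ae_of_all _ fun x => sq_nonneg _
      _ = ENNReal.ofReal ε := by simp
  have hint : Integrable (fun x => (q x - av ρ q x) ^ 2) volume := by
    refine ⟨(hd.pow 2).aestronglyMeasurable, ?_⟩
    rw [hasFiniteIntegral_iff_ofReal (ae_of_all _ fun x => sq_nonneg _)]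
    exact lt_of_le_of_lt hlin ENNReal.ofReal_lt_top
  refine ⟨(memLp_two_iff_integrable_sq hd.aestronglyMeasurable).2 hint, ?_⟩
  rw [integral_eq_lintegral_of_nonneg_ae (ae_of_all _ fun x => sq_nonneg _)
    (hd.pow 2).aestronglyMeasurable]
  calc (∫⁻ x, ENNReal.ofReal ((q x - av ρ q x) ^ 2)).toReal ≤ (ENNReal.ofReal ε).toReal :=
        ENNReal.toReal_mono ENNReal.ofReal_ne_top hlin
    _ = ε := ENNReal.toReal_ofReal hε

theorem av_est' {q : E n → ℝ} (hq : MemLp q 2 volume) {ρ ε : ℝ} (hρ : 0 < ρ)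
    (h : ∀ y : E n, ‖y‖ ≤ ρ → ∫ x, (q (x + y) - q x) ^ 2 ≤ ε) :
    ∫ x, (q x - av ρ q x) ^ 2 ≤ ε := by
  obtain ⟨q', hq'm, hqq'⟩ : ∃ q' : E n → ℝ, StronglyMeasurable q' ∧ q =ᵐ[volume] q' :=
    ⟨hq.1.mk q, hq.1.stronglyMeasurable_mk, hq.1.ae_eq_mk⟩
  have hq'2 : MemLp q' 2 volume := hq.ae_eq hqq'
  have h' : ∀ y : E n, ‖y‖ ≤ ρ → ∫ x, (q' (x + y) - q' x) ^ 2 ≤ ε := by
    intro y hy
    refine le_of_eq_of_le ?_ (h y hy)
    apply integral_congr_ae
    have h1 : ∀ᵐ x : E n, q (x + y) = q' (x + y) :=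
      (measurePreserving_add_right volume y).quasiMeasurePreserving.ae hqq'
    filter_upwards [hqq', h1] with x h2 h3
    rw [h2, h3]
  have h4 := (av_est hq'm.measurable hq'2 hρ h').2
  refine le_of_eq_of_le ?_ h4
  apply integral_congr_ae
  filter_upwards [hqq'] with x h2
  rw [h2, av_congr ρ hqq']

theorem av_sm {q : E n → ℝ} (hq : MemLp q 2 volume) {ρ : ℝ} (hρ : 0 < ρ) :
    StronglyMeasurable (av ρ q) := by
  haveI := nuB_prob (n := n) hρ
  obtain ⟨q', hq'm, hqq'⟩ : ∃ q' : E n → ℝ, StronglyMeasurable q' ∧ q =ᵐ[volume] q' :=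
    ⟨hq.1.mk q, hq.1.stronglyMeasurable_mk, hq.1.ae_eq_mk⟩
  rw [av_congr ρ hqq']
  have hmeas : Measurable fun p : E n × E n => q' (p.1 + p.2) :=
    hq'm.measurable.comp (measurable_fst.add measurable_snd)
  unfold av
  exact (hmeas.stronglyMeasurable).integral_prod_right

theorem zk_sq (ρ : ℝ) (x : E n) :
    ∫ y, zk ρ x y ^ 2 = ∫ y, zk ρ (0 : E n) y ^ 2 := by
  have h2 := integral_add_left_eq_self (μ := (volume : Measure (E n)))
    (fun y => zk ρ x y ^ 2) x
  rw [← h2]
  congr 1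
  ext y
  unfold zk
  by_cases hy : y ∈ Metric.ball (0 : E n) ρ
  · have : x + y ∈ Metric.ball x ρ := by
      simpa [Metric.mem_ball, dist_eq_norm] using hy
    rw [Set.indicator_of_mem hy, Set.indicator_of_mem this]
  · have : x + y ∉ Metric.ball x ρ := by
      simpa [Metric.mem_ball, dist_eq_norm] using hy
    rw [Set.indicator_of_notMem hy, Set.indicator_of_notMem this]

theorem av_bound {q : E n → ℝ} (hq : MemLp q 2 volume) (ρ C : ℝ) (hC : ∫ x, q x ^ 2 ≤ C)
    (x : E n) : |av ρ q x| ≤ (C + ∫ y, zk ρ (0 : E n) y ^ 2) / 2 := by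
  rw [av_eq]
  have hz := memLp_zk (n := n) ρ x
  have h1 : |∫ y, q y * zk ρ x y| ≤ ∫ y, |q y * zk ρ x y| := abs_integral_le_integral_abs
  have h2 : ∫ y, |q y * zk ρ x y| ≤ ∫ y, (q y ^ 2 + zk ρ x y ^ 2) / 2 := by
    apply integral_mono
    · exact (hq.integrable_mul hz).abs
    · exact (hq.integrable_sq.add hz.integrable_sq).div_const 2
    · intro y
      simp only
      rw [abs_mul]
      nlinarith [sq_nonneg (|q y| - |zk ρ x y|), sq_abs (q y), sq_abs (zk ρ x y)]
  have h3 : ∫ y, (q y ^ 2 + zk ρ x y ^ 2) / 2 = ((∫ y, q y ^ 2) + ∫ y, zk ρ x y ^ 2) / 2 := by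
    rw [integral_div, integral_add hq.integrable_sq hz.integrable_sq]
  rw [zk_sq] at h3
  calc |∫ y, q y * zk ρ x y| ≤ _ := h1
    _ ≤ _ := h2
    _ = _ := h3
    _ ≤ _ := by linarith

theorem norm_toLp_sub_sq {a b : E n → ℝ} (ha : MemLp a 2 volume) (hb : MemLp b 2 volume) :
    ‖ha.toLp a - hb.toLp b‖ ^ 2 = ∫ x, (a x - b x) ^ 2 := by
  rw [← MemLp.toLp_sub, ← real_inner_self_eq_norm_sq, MeasureTheory.L2.inner_def]
  apply integral_congr_ae
  filter_upwards [(ha.sub hb).coeFn_toLp] with x hx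
  rw [hx]
  simp [pow_two]

theorem inner_toLp {a b : E n → ℝ} (ha : MemLp a 2 volume) (hb : MemLp b 2 volume) :
    inner ℝ (ha.toLp a) (hb.toLp b) = ∫ x, a x * b x := by
  rw [MeasureTheory.L2.inner_def]
  apply integral_congr_ae
  filter_upwards [ha.coeFn_toLp, hb.coeFn_toLp] with x hx hy
  rw [hx, hy]
  simp [mul_comm]

end SW

open SW in
theorem strong_of_weak {n : ℕ} {K : Set (E n)} (hK : IsCompact K) (q : ℕ → E n → ℝ)
    (q₀ : E n → ℝ)
    (hq : ∀ k, MemLp (q k) 2 volume) (hq₀ : MemLp q₀ 2 volume)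
    (hsupp : ∀ k, ∀ x ∉ K, q k x = 0)
    (hbd : ∃ C : ℝ, ∀ k, ∫ x, q k x ^ 2 ≤ C)
    (hweak : ∀ z : E n → ℝ, MemLp z 2 volume →
      Tendsto (fun k => ∫ x, q k x * z x) atTop (𝓝 (∫ x, q₀ x * z x)))
    (htrans : ∀ ε > 0, ∃ δ > 0, ∀ᶠ k in atTop, ∀ h : E n, ‖h‖ ≤ δ →
      ∫ x, (q k (x + h) - q k x) ^ 2 ≤ ε) :
    Tendsto (fun k => ∫ x, (q k x - q₀ x) ^ 2) atTop (𝓝 0) := by
  obtain ⟨C, hC⟩ := hbd
  obtain ⟨R, hR⟩ := hK.isBounded.subset_closedBall (0 : E n)
  rw [Metric.tendsto_nhds]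
  intro ε hε
  set δ := Real.sqrt ε / 4 with hδdef
  have hδ : 0 < δ := by positivity
  obtain ⟨ρ, hρ, htr⟩ := htrans (δ ^ 2) (by positivity)
  set D := (C + ∫ y, zk ρ (0 : E n) y ^ 2) / 2 with hD
  have hpt : ∀ x, Tendsto (fun k => av ρ (q k) x) atTop (𝓝 (av ρ q₀ x)) := by
    intro x
    simp only [av_eq]
    exact hweak _ (memLp_zk ρ x)
  have hb : ∀ k x, |av ρ (q k) x| ≤ D := fun k x => av_bound (hq k) ρ C (hC k) x
  have hb0 : ∀ x, |av ρ q₀ x| ≤ D := fun x =>
    le_of_tendsto ((hpt x).abs) (Eventually.of_forall fun k => hb k x)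
  have hD0 : 0 ≤ D := le_trans (abs_nonneg _) (hb0 0)
  have hz : ∀ k, ∀ x ∉ Metric.closedBall (0 : E n) (R + ρ), av ρ (q k) x = 0 := by
    intro k x hx
    rw [av_eq]
    have : ∀ y, q k y * zk ρ x y = 0 := by
      intro y
      by_cases hy : y ∈ Metric.ball x ρ
      · have hyK : y ∉ K := by
          intro hyK
          have h1 : ‖y‖ ≤ R := by simpa using hR hyK
          have h2 : ‖y - x‖ < ρ := by simpa [Metric.mem_ball, dist_eq_norm] using hy
          apply hx
          have h3 : ‖x‖ ≤ ‖y‖ + ‖y - x‖ := by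
            calc ‖x‖ = ‖y - (y - x)‖ := by congr 1; abel
              _ ≤ ‖y‖ + ‖y - x‖ := norm_sub_le _ _
          simp only [Metric.mem_closedBall, dist_zero_right]
          linarith
        rw [hsupp k y hyK, zero_mul]
      · unfold zk
        rw [Set.indicator_of_notMem hy, mul_zero]
    simp [this]
  have hz0 : ∀ x ∉ Metric.closedBall (0 : E n) (R + ρ), av ρ q₀ x = 0 := by
    intro x hx
    refine tendsto_nhds_unique (hpt x) ?_
    simp only [fun k => hz k x hx]
    exact tendsto_const_nhds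
  have hmem : ∀ a : E n → ℝ, StronglyMeasurable a → (∀ x, |a x| ≤ D) →
      (∀ x ∉ Metric.closedBall (0 : E n) (R + ρ), a x = 0) → MemLp a 2 volume := by
    intro a ha h1 h2
    have h3 : MemLp ((Metric.closedBall (0 : E n) (R + ρ)).indicator fun _ => D) 2 volume :=
      memLp_indicator_const 2 measurableSet_closedBall _ (Or.inr measure_closedBall_lt_top.ne)
    refine h3.mono ha.aestronglyMeasurable (ae_of_all _ fun x => ?_)
    by_cases hx : x ∈ Metric.closedBall (0 : E n) (R + ρ)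
    · rw [Set.indicator_of_mem hx, Real.norm_eq_abs, Real.norm_eq_abs, abs_of_nonneg hD0]
      exact h1 x
    · rw [h2 x hx, Set.indicator_of_notMem hx]
  have hA : ∀ k, MemLp (av ρ (q k)) 2 volume := fun k =>
    hmem _ (av_sm (hq k) hρ) (hb k) (hz k)
  have hA0 : MemLp (av ρ q₀) 2 volume := hmem _ (av_sm hq₀ hρ) hb0 hz0
  have hconv : Tendsto (fun k => ∫ x, (av ρ (q k) x - av ρ q₀ x) ^ 2) atTop (𝓝 0) := by
    have : Tendsto (fun k => ∫ x, (av ρ (q k) x - av ρ q₀ x) ^ 2) atTop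
        (𝓝 (∫ _x : E n, (0 : ℝ))) := by
      refine tendsto_integral_of_dominated_convergence
        ((Metric.closedBall (0 : E n) (R + ρ)).indicator fun _ => (2 * D) ^ 2) ?_ ?_ ?_ ?_
      · intro k
        exact (((av_sm (hq k) hρ).sub (av_sm hq₀ hρ)).pow 2).aestronglyMeasurable
      · exact (integrable_indicator_iff measurableSet_closedBall).2
          (integrableOn_const measure_closedBall_lt_top.ne)
      · intro k
        refine ae_of_all _ fun x => ?_
        by_cases hx : x ∈ Metric.closedBall (0 : E n) (R + ρ)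
        · rw [Set.indicator_of_mem hx, Real.norm_eq_abs, abs_pow]
          have h1 := hb k x
          have h2 := hb0 x
          have h3 : |av ρ (q k) x - av ρ q₀ x| ≤ 2 * D := by
            calc |av ρ (q k) x - av ρ q₀ x| ≤ |av ρ (q k) x| + |av ρ q₀ x| := abs_sub _ _
              _ ≤ 2 * D := by linarith
          gcongr
        · rw [hz k x hx, hz0 x hx, Set.indicator_of_notMem hx]
          simp
      · refine ae_of_all _ fun x => ?_
        have h1 : Tendsto (fun k => (av ρ (q k) x - av ρ q₀ x) ^ 2) atTop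
            (𝓝 ((av ρ q₀ x - av ρ q₀ x) ^ 2)) := ((hpt x).sub_const _).pow 2
        simpa using h1
    simpa using this
  have key := hilbert_part (H := Lp ℝ 2 (volume : Measure (E n)))
    (fun k => (hq k).toLp (q k)) (fun k => (hA k).toLp (av ρ (q k)))
    (hq₀.toLp q₀) (hA0.toLp (av ρ q₀)) δ hδ.le ?_ ?_ ?_ hδ
  · filter_upwards [key] with k hk
    have h1 := norm_toLp_sub_sq (hq k) hq₀
    rw [Real.dist_eq, sub_zero, abs_of_nonneg (integral_nonneg fun x => sq_nonneg _), ← h1]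
    have h2 : ‖(hq k).toLp (q k) - hq₀.toLp q₀‖ ^ 2 ≤ (3 * δ) ^ 2 := by gcongr
    have h3 : (3 * δ) ^ 2 = 9 / 16 * ε := by
      rw [hδdef]
      have := Real.sq_sqrt hε.le
      nlinarith [this]
    linarith
  · rw [tendsto_iff_norm_sub_tendsto_zero]
    have h1 : Tendsto (fun k => Real.sqrt (∫ x, (av ρ (q k) x - av ρ q₀ x) ^ 2)) atTop (𝓝 0) := by
      have := (Real.continuous_sqrt.tendsto 0).comp hconv
      rw [Real.sqrt_zero] at this
      exact this
    refine h1.congr fun k => ?_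
    rw [← norm_toLp_sub_sq (hA k) hA0, Real.sqrt_sq (norm_nonneg _)]
  · intro z
    have h1 := hweak z (Lp.memLp z)
    have e1 : ∀ (a : E n → ℝ) (ha : MemLp a 2 volume),
        inner ℝ (ha.toLp a) z = ∫ x, a x * z x := by
      intro a ha
      have := inner_toLp ha (Lp.memLp z)
      rwa [Lp.toLp_coeFn] at this
    simp only [e1]
    exact h1
  · filter_upwards [htr] with k hk
    have h1 := av_est' (hq k) hρ hk
    rw [← norm_toLp_sub_sq (hq k) (hA k)] at h1
    exact (pow_le_pow_iff_left₀ (norm_nonneg _) hδ.le (by norm_num)).1 h1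

end Pool.Agent.H94.Stab
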