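import Pool.Agent.H58.Stab.M11d
import Pool.Agent.H87.Stab.M9
import Pool.Agent.H20.Stab.M7
import Pool.Agent.H9.Stab.M6b

/-!
# M11: Theorem B for MP_de3e90_an
-/

set_option autoImplicit false

open MeasureTheory Set Filter Topology
open scoped ContDiff

namespace Pool.Agent.H94.Stab

namespace SW

variable {n : ℕ}

/-! ### Laplacian of radial functions -/

theorem lap_rad {p : ℝ} (hp : p ≠ 0) (hp2 : p - 2 ≠ 0) {g : ℝ → ℝ} (hg : Bump1 g) (x : E n) :
    ∑ i, pd i (pd i (rad p g)) x =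
      rad (p - 2) (fun t => ((n : ℝ) + p - 2) * (p * g t + deriv g t) +
        deriv (fun t => p * g t + deriv g t) t) x := by
  set h : ℝ → ℝ := fun t => p * g t + deriv g t with hh
  have hB : Bump1 h := (hg.const_mul p).add hg.deriv
  have e1 : ∀ i, pd i (rad p g : E n → ℝ) = fun x => x i * rad (p - 2) h x := fun i =>
    funext fun x => pd_rad hp hg i x
  have e2 : ∀ i, pd i (pd i (rad p g)) x = rad (p - 2) h x +
      x i ^ 2 * rad (p - 2 - 2) (fun t => (p - 2) * h t + deriv h t) x := by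
    intro i
    rw [e1 i, pd_mul i ((coord_contDiff (m := 1) i).differentiable (by norm_num) x)
      ((contDiff_rad hp2 hB).differentiable (by simp) x), pd_coord, if_pos rfl,
      pd_rad hp2 hB i x]
    ring
  simp_rw [e2]
  rw [Finset.sum_add_distrib, ← Finset.sum_mul]
  have e3 : ∑ i, x i ^ 2 = ‖x‖ ^ 2 := by
    rw [EuclideanSpace.norm_eq, Real.sq_sqrt (Finset.sum_nonneg fun _ _ => sq_nonneg _)]
    simp
  rw [e3]
  simp only [Finset.sum_const, Finset.card_univ, Fintype.card_fin, nsmul_eq_mul]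
  by_cases hx : x = 0
  · subst hx
    simp only [rad, norm_zero, Real.zero_rpow hp2]
    ring
  · have hx' : 0 < ‖x‖ := norm_pos_iff.2 hx
    have e4 : ‖x‖ ^ 2 * ‖x‖ ^ (p - 2 - 2) = ‖x‖ ^ (p - 2) := by
      rw [← Real.rpow_natCast ‖x‖ 2, ← Real.rpow_add hx']
      congr 1; push_cast; ring
    have hv : h (Real.log ‖x‖) = p * g (Real.log ‖x‖) + deriv g (Real.log ‖x‖) := rfl
    simp only [rad]
    rw [← hv]
    linear_combination ((p - 2) * h (Real.log ‖x‖) + deriv h (Real.log ‖x‖)) * e4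

theorem integral_exp_deriv (c : ℝ) {h : ℝ → ℝ} (hh : Bump1 h) :
    ∫ t, Real.exp (c * t) * deriv h t = - c * ∫ t, Real.exp (c * t) * h t := by
  have hd : Differentiable ℝ h := hh.1.differentiable (by simp)
  have hce : Continuous fun t : ℝ => Real.exp (c * t) := by fun_prop
  have hder : ∀ t, HasDerivAt (fun t => Real.exp (c * t) * h t)
      (c * (Real.exp (c * t) * h t) + Real.exp (c * t) * deriv h t) t := by
    intro t
    have h1 : HasDerivAt (fun t => Real.exp (c * t)) (Real.exp (c * t) * (c * 1)) t :=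
      ((hasDerivAt_id t).const_mul c).exp
    exact (h1.fun_mul (hd t).hasDerivAt).congr_deriv (by ring)
  have I1 : Integrable (fun t => Real.exp (c * t) * h t) volume :=
    (hce.mul hh.1.continuous).integrable_of_hasCompactSupport hh.2.mul_left
  have I2 : Integrable (fun t => Real.exp (c * t) * deriv h t) volume :=
    (hce.mul hh.deriv.1.continuous).integrable_of_hasCompactSupport hh.deriv.2.mul_left
  have h0 := integral_eq_zero_of_hasDerivAt_of_integrable hder ((I1.const_mul c).add I2) I1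
  have h1 := integral_add (I1.const_mul c) I2
  rw [integral_const_mul] at h1
  have h2 : ∫ t, (c * (Real.exp (c * t) * h t) + Real.exp (c * t) * deriv h t) =
      c * (∫ t, Real.exp (c * t) * h t) + ∫ t, Real.exp (c * t) * deriv h t := h1
  rw [h2] at h0
  linarith

theorem Stable.mono' {Ω Ω' : Set (E n)} {f F : ℝ → ℝ} {u : E n → ℝ} (h : Stable Ω f F u)
    (ho : IsOpen Ω') (hs : Ω' ⊆ Ω) : Stable Ω' f F u :=
  ⟨ho, h.smooth, h.f_C1, h.F_deriv, fun x hx => h.eqn x (hs hx),
    fun ξ hξ => h.stab ξ (hξ.mono hs)⟩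

theorem theoremB_of {u : ℕ → E n → ℝ} {f F : ℕ → ℝ → ℝ} (hn : 5 ≤ n) (h : BadSeq u f F)
    (htr : ∀ ε > 0, ∃ δ > 0, ∀ᶠ k in atTop, ∀ y : E n, ‖y‖ ≤ δ →
      ∫ x in SW.CA n 4, |gsq (u k) (x + y) - gsq (u k) x| ≤ ε) : False := by
  have hn3 : 3 ≤ n := by omega
  obtain ⟨CE, hE⟩ := b_energy hn3 h (SW.isCompact_CA n 4) (SW.zero_notMem_CA n 4)
  obtain ⟨CW, hW⟩ := b_W hn3 h (SW.isCompact_CA n 4) (SW.zero_notMem_CA n 4)
  obtain ⟨ε, hε, hcub⟩ := b_cubic hn3 h (SW.isCompact_CA n 4) (SW.zero_notMem_CA n 4)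
  obtain ⟨N, hN⟩ := Filter.eventually_atTop.1 (hE.and hW)
  -- the shifted sequence
  have htail : Tail (fun k => u (k + (N + 5))) (fun k => f (k + (N + 5)))
      (fun k => F (k + (N + 5))) CE CW := by
    refine ⟨fun k => ?_, fun k => (hN _ (by omega)).1, fun k => (hN _ (by omega)).2, ?_, ?_⟩
    · refine Stable.mono' (h.st (k + (N + 5))) (isOpen_Ann n 5) ?_
      intro x hx
      have h5 : (5 : ℝ) ≤ ((k + (N + 5) : ℕ) : ℝ) := by
        have : 5 ≤ k + (N + 5) := by omega
        exact_mod_cast this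
      exact ⟨lt_of_le_of_lt (Real.exp_le_exp.2 (by linarith)) hx.1,
        lt_of_lt_of_le hx.2 (Real.exp_le_exp.2 h5)⟩
    · intro i j l a ha
      have haK : tsupport a ⊆ SW.CA n 4 := ha.sub.trans (SW.Ann_subset_CA le_rfl)
      have ha0 : Test {0}ᶜ a := ha.mono fun x hx => by
        intro h0
        rw [mem_singleton_iff.1 h0] at hx
        exact SW.zero_notMem_CA n 4 (SW.Ann_subset_CA le_rfl hx)
      obtain ⟨M, hM⟩ := (continuous_gsq ha.c1).bounded_above_of_compact_support (by
        refine ha.compact.of_isClosed_subset (isClosed_tsupport _) (closure_minimal ?_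
          (isClosed_tsupport _))
        intro x hx
        by_contra hcon
        apply hx
        rw [gsq_eq_zero_iff]
        intro l
        exact image_eq_zero_of_notMem_tsupport fun h' => hcon (tsupport_pd_subset l a h'))
      have hM0 : 0 ≤ M := le_trans (norm_nonneg _) (hM 0)
      have hMs : ∀ x, gsq a x ≤ Real.sqrt M ^ 2 := by
        intro x
        rw [Real.sq_sqrt hM0]
        have := hM x
        rw [Real.norm_eq_abs, abs_of_nonneg (gsq_nonneg _ _)] at this
        exact this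
      have h1 : Tendsto (fun k => ∫ x, f k (u k x) * gr (u k) x * nu (u k) i x * nu (u k) j x *
          nu (u k) l x * a x) atTop (𝓝 0) := by
        have h2 : Tendsto (fun k => ε k * Real.sqrt M) atTop (𝓝 0) := by
          have := hε.mul_const (Real.sqrt M)
          simpa using this
        rw [tendsto_zero_iff_abs_tendsto_zero]
        refine squeeze_zero' (Eventually.of_forall fun k => abs_nonneg _) ?_ h2
        filter_upwards [hcub] with k hk
        exact hk i j l a (Real.sqrt M) ha0 haK (Real.sqrt_nonneg _) hMs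
      exact h1.comp (tendsto_add_atTop_nat (N + 5))
    · intro ε' hε'
      obtain ⟨δ, hδ, h1⟩ := htr ε' hε'
      exact ⟨δ, hδ, (tendsto_add_atTop_nat (N + 5)).eventually h1⟩
  -- the test function
  let b : ContDiffBump (0 : ℝ) := ⟨1 / 4, 1 / 2, by norm_num, by norm_num⟩
  let G : ℝ → ℝ := fun t => Real.exp (-t) * b t
  have hG : Bump1 G :=
    ⟨(Real.contDiff_exp.comp contDiff_neg).mul b.contDiff, b.hasCompactSupport.mul_left⟩
  have hG0 : ∀ t, 0 ≤ G t := fun t => mul_nonneg (Real.exp_pos _).le b.nonneg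
  let φ : E n → ℝ := rad 1 G
  have hφ : Test (Ann n 1) φ := by
    refine test_rad one_ne_zero hG ?_
    intro x hx hl
    have h1 : Real.log ‖x‖ ∈ tsupport (b : ℝ → ℝ) := tsupport_mul_subset_right hl
    rw [b.tsupport_eq, Metric.mem_closedBall, Real.dist_eq, sub_zero, abs_le] at h1
    have hx' : 0 < ‖x‖ := norm_pos_iff.2 hx
    have h2 : (-(1 / 2) : ℝ) ≤ Real.log ‖x‖ := h1.1
    have h3 : Real.log ‖x‖ ≤ 1 / 2 := h1.2
    constructor
    · rw [← Real.lt_log_iff_exp_lt hx']; linarith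
    · rw [← Real.log_lt_iff_lt_exp hx']; linarith
  have hφ0 : ∀ x, 0 ≤ φ x := fun x => mul_nonneg (Real.rpow_nonneg (norm_nonneg _) _) (hG0 _)
  -- the function ψ
  let h1 : ℝ → ℝ := fun t => 1 * G t + deriv G t
  have hh1 : Bump1 h1 := (hG.const_mul 1).add hG.deriv
  let H : ℝ → ℝ := fun t => ((n : ℝ) + 1 - 2) * h1 t + deriv h1 t
  have hH : Bump1 H := (hh1.const_mul _).add hh1.deriv
  let ψ : ℝ → ℝ := fun t => Real.exp (((n : ℝ) - 3) * t) * H t
  have hψ : Bump1 ψ := hH.mul_left (by fun_prop)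
  have hlap : ∀ x : E n, ∑ i, pd i (pd i φ) x = rad (-1) H x := by
    intro x
    have := lap_rad (n := n) one_ne_zero (by norm_num : (1:ℝ) - 2 ≠ 0) hG x
    rw [show (1:ℝ) - 2 = -1 by norm_num] at this
    exact this
  have hn0 : (2 : ℝ) - n ≠ 0 := by
    have : (5 : ℝ) ≤ n := by exact_mod_cast hn
    linarith
  have hDD : ∀ v : E n → ℝ, ∫ x, gsq v x * ∑ i, pd i (pd i φ) x = DD v ψ := by
    intro v
    unfold DD
    congr 1; ext x
    rw [hlap x]
    by_cases hx : x = 0
    · subst hx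
      simp [rad, Real.zero_rpow hn0]
    · have hx' : 0 < ‖x‖ := norm_pos_iff.2 hx
      have e : ‖x‖ ^ (2 - (n : ℝ)) * Real.exp (((n : ℝ) - 3) * Real.log ‖x‖) = ‖x‖ ^ (-1 : ℝ) := by
        rw [mul_comm ((n : ℝ) - 3), ← Real.rpow_def_of_pos hx', ← Real.rpow_add hx']
        congr 1; ring
      simp only [rad, ψ]
      rw [← e]; ring
  have hlim : Tendsto (fun k => ∫ x, gsq (u (k + (N + 5))) x * ∑ i, pd i (pd i φ) x) atTop
      (𝓝 (∫ t, ψ t)) := by
    have := (h.D1 ψ hψ).comp (tendsto_add_atTop_nat (N + 5))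
    refine this.congr fun k => ?_
    rw [hDD]; rfl
  have hpos := main_tail htail (P_translation n)
    (fun {A} a1 s S V a2 a3 a4 a5 a6 a7 a8 a9 a10 a11 a12 =>
      Pool.Agent.H20.Stab.bochner a1 s S V a2 a3 a4 a5 a6 a7 a8 a9 a10 a11 a12) φ hφ hφ0 _ hlim
  -- the integral of ψ is negative
  have hce : Continuous fun t : ℝ => Real.exp (((n : ℝ) - 3) * t) := by fun_prop
  have J1 : ∫ t, ψ t = 2 * ∫ t, Real.exp (((n : ℝ) - 3) * t) * h1 t := by
    have i1 : Integrable (fun t => Real.exp (((n : ℝ) - 3) * t) * h1 t) volume :=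
      (hce.mul hh1.1.continuous).integrable_of_hasCompactSupport hh1.2.mul_left
    have i2 : Integrable (fun t => Real.exp (((n : ℝ) - 3) * t) * deriv h1 t) volume :=
      (hce.mul hh1.deriv.1.continuous).integrable_of_hasCompactSupport hh1.deriv.2.mul_left
    have e1 : ∀ t, ψ t = ((n : ℝ) + 1 - 2) * (Real.exp (((n : ℝ) - 3) * t) * h1 t) +
        Real.exp (((n : ℝ) - 3) * t) * deriv h1 t := by
      intro t; simp only [ψ, H]; ring
    simp_rw [e1]
    have e2 := integral_add (i1.const_mul ((n : ℝ) + 1 - 2)) i2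
    rw [integral_const_mul] at e2
    have e3 := integral_exp_deriv ((n : ℝ) - 3) hh1
    calc _ = ((n : ℝ) + 1 - 2) * (∫ t, Real.exp (((n : ℝ) - 3) * t) * h1 t) +
          ∫ t, Real.exp (((n : ℝ) - 3) * t) * deriv h1 t := e2
      _ = _ := by rw [e3]; ring
  have J2 : ∫ t, Real.exp (((n : ℝ) - 3) * t) * h1 t =
      (4 - (n : ℝ)) * ∫ t, Real.exp (((n : ℝ) - 3) * t) * G t := by
    have i1 : Integrable (fun t => Real.exp (((n : ℝ) - 3) * t) * G t) volume :=
      (hce.mul hG.1.continuous).integrable_of_hasCompactSupport hG.2.mul_left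
    have i2 : Integrable (fun t => Real.exp (((n : ℝ) - 3) * t) * deriv G t) volume :=
      (hce.mul hG.deriv.1.continuous).integrable_of_hasCompactSupport hG.deriv.2.mul_left
    have e1 : ∀ t, Real.exp (((n : ℝ) - 3) * t) * h1 t = Real.exp (((n : ℝ) - 3) * t) * G t +
        Real.exp (((n : ℝ) - 3) * t) * deriv G t := by
      intro t; simp only [h1]; ring
    simp_rw [e1]
    rw [integral_add i1 i2, integral_exp_deriv ((n : ℝ) - 3) hG]
    ring
  have J3 : 0 < ∫ t, Real.exp (((n : ℝ) - 3) * t) * G t := by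
    have hc : Continuous fun t : ℝ => Real.exp (((n : ℝ) - 3) * t) * G t := hce.mul hG.1.continuous
    have hs : HasCompactSupport fun t : ℝ => Real.exp (((n : ℝ) - 3) * t) * G t := hG.2.mul_left
    refine hc.integral_pos_of_hasCompactSupport_nonneg_nonzero hs
      (fun t => mul_nonneg (Real.exp_pos _).le (hG0 t)) (x := 0) ?_
    have : b 0 = 1 := b.one_of_mem_closedBall (Metric.mem_closedBall_self b.rIn_pos.le)
    simp only [G, this]
    positivity
  have hn' : (5 : ℝ) ≤ n := by exact_mod_cast hn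
  rw [J1, J2] at hpos
  nlinarith

end SW

end Pool.Agent.H94.Stab
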