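import Pool.Agent.H94.Stab.Calc3
import Pool.Agent.H58.Stab.M8

set_option autoImplicit false

open MeasureTheory Set Filter Topology
open scoped ContDiff

namespace Pool.Agent.H94.Stab

namespace SW

variable {n : ℕ}

/-- weak convergence in `L²` -/
def WL (b : ℕ → E n → ℝ) (b₀ : E n → ℝ) : Prop :=
  ∀ z : E n → ℝ, MemLp z 2 volume →
    Tendsto (fun k => ∫ x, b k x * z x) atTop (𝓝 (∫ x, b₀ x * z x))

/-- strong convergence in `L²` -/
def SL (b : ℕ → E n → ℝ) (b₀ : E n → ℝ) : Prop :=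
  Tendsto (fun k => ∫ x, (b k x - b₀ x) ^ 2) atTop (𝓝 0)

theorem cs {a b : E n → ℝ} (ha : MemLp a 2 volume) (hb : MemLp b 2 volume) :
    (∫ x, a x * b x) ^ 2 ≤ (∫ x, a x ^ 2) * ∫ x, b x ^ 2 := by
  have h1 : ‖ha.toLp a‖ ^ 2 = ∫ x, a x ^ 2 := by
    rw [← real_inner_self_eq_norm_sq, inner_toLp ha ha]
    congr 1; ext x; ring
  have h2 : ‖hb.toLp b‖ ^ 2 = ∫ x, b x ^ 2 := by
    rw [← real_inner_self_eq_norm_sq, inner_toLp hb hb]
    congr 1; ext x; ring
  rw [← inner_toLp ha hb, ← h1, ← h2, ← mul_pow]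
  exact sq_le_sq' (by
    have := abs_real_inner_le_norm (ha.toLp a) (hb.toLp b)
    exact (abs_le.1 this).1) (real_inner_le_norm _ _)

theorem memLp_mul_bdd {a z : E n → ℝ} (ha : MemLp a 2 volume) (hz : Measurable z) {M : ℝ}
    (hM : ∀ x, |z x| ≤ M) : MemLp (fun x => a x * z x) 2 volume := by
  have h1 : MemLp (fun x => M * a x) 2 volume := ha.const_mul M
  refine h1.mono (ha.1.mul hz.aestronglyMeasurable) (ae_of_all _ fun x => ?_)
  rw [Real.norm_eq_abs, Real.norm_eq_abs, abs_mul, abs_mul]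
  have h2 : |z x| ≤ |M| := (hM x).trans (le_abs_self M)
  calc |a x| * |z x| ≤ |a x| * |M| := by gcongr
    _ = |M| * |a x| := by ring

theorem integrable_mul3 {a b z : E n → ℝ} (ha : MemLp a 2 volume) (hb : MemLp b 2 volume)
    (hz : Measurable z) {M : ℝ} (hM : ∀ x, |z x| ≤ M) :
    Integrable (fun x => a x * b x * z x) volume := by
  have := ha.integrable_mul (memLp_mul_bdd hb hz hM)
  refine this.congr (ae_of_all _ fun x => ?_)
  simp only [Pi.mul_apply]
  ring

/-- product of a strongly and a weakly convergent sequence -/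
theorem prod_limit {a b : ℕ → E n → ℝ} {a₀ b₀ z : E n → ℝ}
    (ha : ∀ k, MemLp (a k) 2 volume) (ha₀ : MemLp a₀ 2 volume)
    (hb : ∀ k, MemLp (b k) 2 volume) (hb₀ : MemLp b₀ 2 volume)
    (hS : SL a a₀) (hW : WL b b₀) {C : ℝ} (hC : ∀ k, ∫ x, b k x ^ 2 ≤ C)
    (hz : Measurable z) {M : ℝ} (hM : ∀ x, |z x| ≤ M) :
    Tendsto (fun k => ∫ x, a k x * b k x * z x) atTop (𝓝 (∫ x, a₀ x * b₀ x * z x)) := by
  have hC0 : 0 ≤ C := le_trans (integral_nonneg fun x => sq_nonneg _) (hC 0)
  -- second part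
  have h2 : Tendsto (fun k => ∫ x, b k x * (a₀ x * z x)) atTop (𝓝 (∫ x, b₀ x * (a₀ x * z x))) :=
    hW _ (memLp_mul_bdd ha₀ hz hM)
  -- first part
  have hMn : ∀ x, |z x| ≤ |M| := fun x => (hM x).trans (le_abs_self M)
  have h1 : Tendsto (fun k => ∫ x, (a k x - a₀ x) * (b k x * z x)) atTop (𝓝 0) := by
    have hb2 : ∀ k, ∫ x, (b k x * z x) ^ 2 ≤ M ^ 2 * C := by
      intro k
      calc ∫ x, (b k x * z x) ^ 2 ≤ ∫ x, M ^ 2 * b k x ^ 2 := by
            apply integral_mono
            · exact (memLp_mul_bdd (hb k) hz hM).integrable_sq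
            · exact (hb k).integrable_sq.const_mul _
            · intro x
              simp only
              rw [mul_pow]
              have : z x ^ 2 ≤ M ^ 2 := by
                rw [← sq_abs (z x), ← sq_abs M]
                exact pow_le_pow_left₀ (abs_nonneg _) (hMn x) 2
              nlinarith [sq_nonneg (b k x)]
        _ = M ^ 2 * ∫ x, b k x ^ 2 := integral_const_mul _ _
        _ ≤ M ^ 2 * C := by gcongr; exact hC k
    have h3 : ∀ k, (∫ x, (a k x - a₀ x) * (b k x * z x)) ^ 2 ≤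
        (∫ x, (a k x - a₀ x) ^ 2) * (M ^ 2 * C) := by
      intro k
      refine (cs ((ha k).sub ha₀) (memLp_mul_bdd (hb k) hz hM)).trans ?_
      have h0 : 0 ≤ ∫ x, ((a k - a₀) x) ^ 2 := integral_nonneg fun x => sq_nonneg _
      exact mul_le_mul_of_nonneg_left (hb2 k) h0
    have h4 : Tendsto (fun k => (∫ x, (a k x - a₀ x) ^ 2) * (M ^ 2 * C)) atTop (𝓝 0) := by
      have := Tendsto.mul_const (M ^ 2 * C) hS
      simpa using this
    have h5 : Tendsto (fun k => (∫ x, (a k x - a₀ x) * (b k x * z x)) ^ 2) atTop (𝓝 0) :=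
      squeeze_zero (fun k => sq_nonneg _) h3 h4
    have h6 := (Real.continuous_sqrt.tendsto 0).comp h5
    rw [Real.sqrt_zero] at h6
    rw [tendsto_zero_iff_abs_tendsto_zero]
    refine h6.congr fun k => ?_
    simp only [Function.comp_apply]
    rw [Real.sqrt_sq_eq_abs]
  have h7 := h1.add h2
  rw [zero_add] at h7
  have e0 : ∫ x, b₀ x * (a₀ x * z x) = ∫ x, a₀ x * b₀ x * z x := by
    congr 1; ext x; ring
  rw [e0] at h7
  refine h7.congr fun k => ?_
  rw [← integral_add]
  · congr 1; ext x; ring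
  · have := integrable_mul3 ((ha k).sub ha₀) (hb k) hz hM
    refine this.congr (ae_of_all _ fun x => ?_)
    simp only [Pi.sub_apply]; ring
  · have := integrable_mul3 ha₀ (hb k) hz hM
    refine this.congr (ae_of_all _ fun x => ?_)
    ring

theorem SL.WL {a : ℕ → E n → ℝ} {a₀ : E n → ℝ} (ha : ∀ k, MemLp (a k) 2 volume)
    (ha₀ : MemLp a₀ 2 volume) (h : SL a a₀) : WL a a₀ := by
  intro z hz
  have h3 : ∀ k, (∫ x, (a k x - a₀ x) * z x) ^ 2 ≤ (∫ x, (a k x - a₀ x) ^ 2) * ∫ x, z x ^ 2 :=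
    fun k => cs ((ha k).sub ha₀) hz
  have h4 : Tendsto (fun k => (∫ x, (a k x - a₀ x) ^ 2) * ∫ x, z x ^ 2) atTop (𝓝 0) := by
    have := Tendsto.mul_const (∫ x, z x ^ 2) h
    simpa using this
  have h5 : Tendsto (fun k => (∫ x, (a k x - a₀ x) * z x) ^ 2) atTop (𝓝 0) :=
    squeeze_zero (fun k => sq_nonneg _) h3 h4
  have h6 := (Real.continuous_sqrt.tendsto 0).comp h5
  rw [Real.sqrt_zero] at h6
  have h7 : Tendsto (fun k => ∫ x, (a k x - a₀ x) * z x) atTop (𝓝 0) := by
    rw [tendsto_zero_iff_abs_tendsto_zero]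
    refine h6.congr fun k => ?_
    simp only [Function.comp_apply]
    rw [Real.sqrt_sq_eq_abs]
  have h8 := h7.add_const (∫ x, a₀ x * z x)
  rw [zero_add] at h8
  refine h8.congr fun k => ?_
  have i1 : Integrable (fun x => (a k x - a₀ x) * z x) volume :=
    ((ha k).sub ha₀).integrable_mul hz
  have i2 : Integrable (fun x => a₀ x * z x) volume := ha₀.integrable_mul hz
  rw [← integral_add i1 i2]
  congr 1; ext x; ring

theorem WL.add {b c : ℕ → E n → ℝ} {b₀ c₀ : E n → ℝ} (hb : ∀ k, MemLp (b k) 2 volume)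
    (hb₀ : MemLp b₀ 2 volume) (hc : ∀ k, MemLp (c k) 2 volume) (hc₀ : MemLp c₀ 2 volume)
    (h : WL b b₀) (h' : WL c c₀) : WL (fun k x => b k x + c k x) (fun x => b₀ x + c₀ x) := by
  intro z hz
  have h1 := (h z hz).add (h' z hz)
  have e : ∀ (p q : E n → ℝ), MemLp p 2 volume → MemLp q 2 volume →
      ∫ x, (p x + q x) * z x = (∫ x, p x * z x) + ∫ x, q x * z x := by
    intro p q hp hq
    have i1 : Integrable (fun x => p x * z x) volume := hp.integrable_mul hz
    have i2 : Integrable (fun x => q x * z x) volume := hq.integrable_mul hz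
    rw [← integral_add i1 i2]
    congr 1; ext x; ring
  rw [← e _ _ hb₀ hc₀] at h1
  exact h1.congr fun k => (e _ _ (hb k) (hc k)).symm

theorem WL.sum {ι : Type*} (s : Finset ι) {b : ι → ℕ → E n → ℝ} {b₀ : ι → E n → ℝ}
    (hb : ∀ i k, MemLp (b i k) 2 volume) (hb₀ : ∀ i, MemLp (b₀ i) 2 volume)
    (h : ∀ i, WL (b i) (b₀ i)) : WL (fun k x => ∑ i ∈ s, b i k x) (fun x => ∑ i ∈ s, b₀ i x) := by
  classical
  induction s using Finset.induction_on with
  | empty => intro z hz; simp
  | insert i s hi ih =>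
    have e1 : (fun k x => ∑ j ∈ insert i s, b j k x) = fun k x => b i k x + ∑ j ∈ s, b j k x := by
      ext k x; rw [Finset.sum_insert hi]
    have e2 : (fun x => ∑ j ∈ insert i s, b₀ j x) = fun x => b₀ i x + ∑ j ∈ s, b₀ j x := by
      ext x; rw [Finset.sum_insert hi]
    rw [e1, e2]
    exact WL.add (hb i) (hb₀ i) (fun k => memLp_finsetSum s fun j _ => hb j k)
      (memLp_finsetSum s fun j _ => hb₀ j) (h i) ih

theorem WL.unique {b : ℕ → E n → ℝ} {b₀ c₀ : E n → ℝ} (hb₀ : MemLp b₀ 2 volume)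
    (hc₀ : MemLp c₀ 2 volume) (h : WL b b₀) (h' : WL b c₀) : b₀ =ᵐ[volume] c₀ := by
  have hz : MemLp (fun x => b₀ x - c₀ x) 2 volume := hb₀.sub hc₀
  have h1 := tendsto_nhds_unique (h _ hz) (h' _ hz)
  have h2 : ∫ x, (b₀ x - c₀ x) ^ 2 = 0 := by
    have i1 : Integrable (fun x => b₀ x * (b₀ x - c₀ x)) volume := hb₀.integrable_mul hz
    have i2 : Integrable (fun x => c₀ x * (b₀ x - c₀ x)) volume := hc₀.integrable_mul hz
    have : ∀ x, (b₀ x - c₀ x) ^ 2 = b₀ x * (b₀ x - c₀ x) - c₀ x * (b₀ x - c₀ x) := fun x => by ring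
    simp_rw [this]
    rw [integral_sub i1 i2, h1, sub_self]
  rw [integral_eq_zero_iff_of_nonneg (fun x => sq_nonneg _) hz.integrable_sq] at h2
  filter_upwards [h2] with x hx
  have : (b₀ x - c₀ x) ^ 2 = 0 := hx
  have := pow_eq_zero_iff (two_ne_zero) |>.1 this
  linarith

theorem WL.nonneg {b : ℕ → E n → ℝ} {b₀ : E n → ℝ} (hb₀ : MemLp b₀ 2 volume)
    (h : WL b b₀) (hpos : ∀ k x, 0 ≤ b k x) : ∀ᵐ x, 0 ≤ b₀ x := by
  have hz : MemLp (fun x => min (b₀ x) 0) 2 volume := by
    refine hb₀.mono (hb₀.1.inf aestronglyMeasurable_const) (ae_of_all _ fun x => ?_)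
    rw [Real.norm_eq_abs, Real.norm_eq_abs]
    rcases le_total (b₀ x) 0 with h0 | h0
    · rw [min_eq_left h0]
    · rw [min_eq_right h0]; simp
  have h1 : ∫ x, b₀ x * min (b₀ x) 0 ≤ 0 := by
    refine le_of_tendsto (h _ hz) (Eventually.of_forall fun k => ?_)
    apply integral_nonpos
    intro x
    exact mul_nonpos_of_nonneg_of_nonpos (hpos k x) (min_le_right _ _)
  have h2 : ∀ x, b₀ x * min (b₀ x) 0 = (min (b₀ x) 0) ^ 2 := by
    intro x
    rcases le_total (b₀ x) 0 with h0 | h0
    · rw [min_eq_left h0]; ring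
    · rw [min_eq_right h0]; ring
  simp_rw [h2] at h1
  have h3 : ∫ x, (min (b₀ x) 0) ^ 2 = 0 :=
    le_antisymm h1 (integral_nonneg fun x => sq_nonneg _)
  rw [integral_eq_zero_iff_of_nonneg (fun x => sq_nonneg _) hz.integrable_sq] at h3
  filter_upwards [h3] with x hx
  have h4 : (min (b₀ x) 0) ^ 2 = 0 := hx
  have h5 := pow_eq_zero_iff (two_ne_zero) |>.1 h4
  by_contra hcon
  push Not at hcon
  rw [min_eq_left hcon.le] at h5
  linarith

/-- equality of `L¹` functions from equality of all set integrals, for limits of products -/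
theorem ae_eq_of_bdd {g h : E n → ℝ} (hg : Integrable g volume) (hh : Integrable h volume)
    (H : ∀ z : E n → ℝ, Measurable z → (∀ x, |z x| ≤ 1) → ∫ x, g x * z x = ∫ x, h x * z x) :
    g =ᵐ[volume] h := by
  refine hg.ae_eq_of_forall_setIntegral_eq _ _ hh fun s hs _ => ?_
  have h1 := H (s.indicator fun _ => (1 : ℝ)) (measurable_const.indicator hs) (by
    intro x
    by_cases hx : x ∈ s <;> simp [hx])
  rw [← integral_indicator hs, ← integral_indicator hs]
  have e : ∀ p : E n → ℝ, ∀ x, p x * s.indicator (fun _ => (1 : ℝ)) x = s.indicator p x := by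
    intro p x
    by_cases hx : x ∈ s <;> simp [hx]
  simp_rw [e] at h1
  exact h1

/-- extraction of weakly convergent subsequences, finitely many sequences -/
theorem extract {ι : Type*} (s : Finset ι) (b : ι → ℕ → E n → ℝ)
    (hb : ∀ i k, MemLp (b i k) 2 volume) {C : ℝ} (hC : ∀ i k, ∫ x, b i k x ^ 2 ≤ C) :
    ∃ σ : ℕ → ℕ, StrictMono σ ∧ ∀ i ∈ s, ∃ w : E n → ℝ, MemLp w 2 volume ∧
      WL (fun k => b i (σ k)) w := by
  classical
  induction s using Finset.induction_on with
  | empty => exact ⟨id, strictMono_id, by simp⟩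
  | insert i s hi ih =>
    obtain ⟨σ, hσ, h1⟩ := ih
    haveI : Fact ((2 : ENNReal) ≠ ⊤) := ⟨by norm_num⟩
    haveI : SecondCountableTopology (Lp ℝ 2 (volume : Measure (E n))) := inferInstance
    obtain ⟨τ, hτ, w, hw⟩ := weak_compact (H := Lp ℝ 2 (volume : Measure (E n)))
      (fun k => (hb i (σ k)).toLp _) (Real.sqrt C) (by
        intro k
        apply Real.le_sqrt_of_sq_le
        rw [← real_inner_self_eq_norm_sq, inner_toLp (hb i (σ k)) (hb i (σ k))]
        refine le_trans (le_of_eq ?_) (hC i (σ k))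
        congr 1; ext x; ring)
    refine ⟨σ ∘ τ, hσ.comp hτ, fun j hj => ?_⟩
    rw [Finset.mem_insert] at hj
    rcases hj with rfl | hj
    · refine ⟨w, Lp.memLp w, fun z hz => ?_⟩
      have h2 := hw (hz.toLp z)
      have e1 : inner ℝ w (hz.toLp z) = ∫ x, w x * z x := by
        have := inner_toLp (Lp.memLp w) hz
        rwa [Lp.toLp_coeFn] at this
      rw [e1] at h2
      refine h2.congr fun k => ?_
      rw [inner_toLp (hb _ _) hz]
      rfl
    · obtain ⟨w', hw', h3⟩ := h1 j hj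
      exact ⟨w', hw', fun z hz => (h3 z hz).comp hτ.tendsto_atTop⟩

/-- translation estimates: coordinate directions suffice -/
theorem trans_of_coord {q : E n → ℝ} (hq : MemLp q 2 volume) {δ ε : ℝ}
    (h : ∀ (l : Fin n) (τ : ℝ), |τ| ≤ δ →
      ∫ x, (q (x + τ • EuclideanSpace.single l (1 : ℝ)) - q x) ^ 2 ≤ ε) (hε : 0 ≤ ε)
    (v : E n) (hv : ‖v‖ ≤ δ) : ∫ x, (q (x + v) - q x) ^ 2 ≤ (n : ℝ) ^ 2 * ε := by
  classical
  -- finite sums of coordinates of `v`
  have key : ∀ s : Finset (Fin n),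
      ∫ x, (q (x + ∑ l ∈ s, v l • EuclideanSpace.single l (1 : ℝ)) - q x) ^ 2 ≤
        (s.card : ℝ) ^ 2 * ε := by
    intro s
    induction s using Finset.induction_on with
    | empty => simp
    | insert i s hi ih =>
      set w := ∑ l ∈ s, v l • EuclideanSpace.single l (1 : ℝ) with hw
      rw [Finset.sum_insert hi, Finset.card_insert_of_notMem hi]
      have hvi : |v i| ≤ δ := by
        have h0 : |v i| ≤ ‖v‖ := PiLp.norm_apply_le v i
        exact h0.trans hv
      have h1 := h i (v i) hvi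
      have m1 : MemLp (fun x => q (x + (v i • EuclideanSpace.single i (1 : ℝ) + w)) - q (x + w)) 2
          volume := (hq.comp_measurePreserving (measurePreserving_add_right volume _)).sub
            (hq.comp_measurePreserving (measurePreserving_add_right volume w))
      have m2 : MemLp (fun x => q (x + w) - q x) 2 volume :=
        (hq.comp_measurePreserving (measurePreserving_add_right volume w)).sub hq
      have h2 : ∫ x, (q (x + (v i • EuclideanSpace.single i (1 : ℝ) + w)) - q (x + w)) ^ 2 ≤ ε := by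
        have e := integral_add_right_eq_self (μ := (volume : Measure (E n)))
          (fun x => (q (x + v i • EuclideanSpace.single i (1 : ℝ)) - q x) ^ 2) w
        refine le_of_eq_of_le ?_ h1
        rw [← e]
        congr 1; ext x
        congr 3
        abel
      -- Minkowski
      set A := ∫ x, (q (x + (v i • EuclideanSpace.single i (1 : ℝ) + w)) - q (x + w)) ^ 2
      set B := ∫ x, (q (x + w) - q x) ^ 2
      have hA0 : 0 ≤ A := integral_nonneg fun x => sq_nonneg _
      have hB0 : 0 ≤ B := integral_nonneg fun x => sq_nonneg _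
      set Cc := ∫ x, (q (x + (v i • EuclideanSpace.single i (1 : ℝ) + w)) - q (x + w)) *
        (q (x + w) - q x)
      have hcs : Cc ^ 2 ≤ A * B := cs m1 m2
      have h3 : ∫ x, (q (x + (v i • EuclideanSpace.single i (1 : ℝ) + w)) - q x) ^ 2 =
          A + 2 * Cc + B := by
        have e : ∀ x, (q (x + (v i • EuclideanSpace.single i (1 : ℝ) + w)) - q x) ^ 2 =
            (q (x + (v i • EuclideanSpace.single i (1 : ℝ) + w)) - q (x + w)) ^ 2 +
            2 * ((q (x + (v i • EuclideanSpace.single i (1 : ℝ) + w)) - q (x + w)) *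
              (q (x + w) - q x)) + (q (x + w) - q x) ^ 2 := fun x => by ring
        simp_rw [e]
        have i3 : Integrable (fun x => (q (x + (v i • EuclideanSpace.single i (1 : ℝ) + w)) -
            q (x + w)) * (q (x + w) - q x)) volume := m1.integrable_mul m2
        have j1 := integral_add (m1.integrable_sq.add (i3.const_mul 2)) m2.integrable_sq
        have j2 := integral_add m1.integrable_sq (i3.const_mul 2)
        rw [integral_const_mul] at j2
        simp only [Pi.add_apply] at j1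
        rw [j1, j2]
      rw [h3]
      push_cast
      set m := (s.card : ℝ)
      have hm : 0 ≤ m := Nat.cast_nonneg _
      -- Cc ≤ m ε
      have h4 : Cc ^ 2 ≤ (m * ε) ^ 2 := by
        calc Cc ^ 2 ≤ A * B := hcs
          _ ≤ ε * (m ^ 2 * ε) := mul_le_mul h2 ih hB0 hε
          _ = (m * ε) ^ 2 := by ring
      have h5 : Cc ≤ m * ε := (abs_le_of_sq_le_sq' h4 (by positivity)).2
      nlinarith
  have h1 := key Finset.univ
  have h2 : ∑ l, v l • EuclideanSpace.single l (1 : ℝ) = v := by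
    ext j
    simp [Pi.single_apply, Finset.sum_ite_eq]
  rw [h2] at h1
  simpa using h1

end SW

end Pool.Agent.H94.Stab
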