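import Pool.Agent.H58.Stab.M11a

set_option autoImplicit false

open MeasureTheory Set Filter Topology
open scoped ContDiff

namespace Pool.Agent.H94.Stab

namespace SW

variable {n : ℕ}

/-- closed annulus -/
def CA (n : ℕ) (r : ℝ) : Set (E n) := {x | Real.exp (-r) ≤ ‖x‖ ∧ ‖x‖ ≤ Real.exp r}

theorem isCompact_CA (n : ℕ) (r : ℝ) : IsCompact (CA n r) := by
  refine (isCompact_closedBall (0 : E n) (Real.exp r)).of_isClosed_subset ?_ ?_
  · exact (isClosed_le continuous_const continuous_norm).inter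
      (isClosed_le continuous_norm continuous_const)
  · intro x hx
    simpa using hx.2

theorem zero_notMem_CA (n : ℕ) (r : ℝ) : (0 : E n) ∉ CA n r := by
  intro h
  have := h.1
  rw [norm_zero] at this
  exact absurd this (not_le.2 (Real.exp_pos _))

theorem Ann_subset_CA {r s : ℝ} (h : r ≤ s) : Ann n r ⊆ CA n s := by
  intro x hx
  exact ⟨(Real.exp_le_exp.2 (by linarith)).trans hx.1.le, hx.2.le.trans (Real.exp_le_exp.2 h)⟩

theorem CA_subset_Ann {r s : ℝ} (h : r < s) : CA n r ⊆ Ann n s := by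
  intro x hx
  exact ⟨(Real.exp_lt_exp.2 (by linarith)).trans_le hx.1, hx.2.trans_lt (Real.exp_lt_exp.2 h)⟩

/-- the radial cut-off functions -/
theorem exists_cutoff (n : ℕ) : ∃ χ : E n → ℝ, Test (Ann n 3) χ ∧ (∀ x, 0 ≤ χ x) ∧
    (∀ x, χ x ≤ 1) ∧ ∀ x ∈ Ann n 1, χ x = 1 := by
  let b : ContDiffBump (0 : ℝ) := ⟨1, 2, by norm_num, by norm_num⟩
  let g : ℝ → ℝ := fun t => Real.exp (-t) * b t
  have hb : Bump1 g :=
    ⟨(Real.contDiff_exp.comp contDiff_neg).mul b.contDiff, b.hasCompactSupport.mul_left⟩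
  have hval : ∀ x : E n, x ≠ 0 → rad 1 g x = b (Real.log ‖x‖) := by
    intro x hx
    have hx' : 0 < ‖x‖ := norm_pos_iff.2 hx
    simp only [rad, g]
    rw [Real.rpow_one, Real.exp_neg, Real.exp_log hx']
    field_simp
  have hval0 : rad 1 g (0 : E n) = 0 := by simp [rad]
  refine ⟨rad 1 g, test_rad one_ne_zero hb ?_, ?_, ?_, ?_⟩
  · intro x hx hl
    have h1 : Real.log ‖x‖ ∈ tsupport (b : ℝ → ℝ) := tsupport_mul_subset_right hl
    rw [b.tsupport_eq, Metric.mem_closedBall, Real.dist_eq, sub_zero, abs_le] at h1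
    have hx' : 0 < ‖x‖ := norm_pos_iff.2 hx
    have h2 : (-2 : ℝ) ≤ Real.log ‖x‖ := h1.1
    have h3 : Real.log ‖x‖ ≤ 2 := h1.2
    constructor
    · rw [← Real.lt_log_iff_exp_lt hx']; linarith
    · rw [← Real.log_lt_iff_lt_exp hx']; linarith
  · intro x
    by_cases hx : x = 0
    · rw [hx, hval0]
    · rw [hval x hx]; exact b.nonneg
  · intro x
    by_cases hx : x = 0
    · rw [hx, hval0]; norm_num
    · rw [hval x hx]; exact b.le_one
  · intro x hx
    have hx' : 0 < ‖x‖ := (Real.exp_pos _).trans hx.1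
    rw [hval x (norm_pos_iff.1 hx')]
    apply b.one_of_mem_closedBall
    rw [Metric.mem_closedBall, Real.dist_eq, sub_zero, abs_le]
    have h1 : -1 < Real.log ‖x‖ := (Real.lt_log_iff_exp_lt hx').2 hx.1
    have h2 : Real.log ‖x‖ < 1 := (Real.log_lt_iff_lt_exp hx').2 hx.2
    exact ⟨h1.le, h2.le⟩

/-- statement of `P_translation` -/
def SPT (n : ℕ) : Prop := ∃ C : ℝ, 0 ≤ C ∧
    ∀ (Ω : Set (E n)) (f F : ℝ → ℝ) (u : E n → ℝ), Stable Ω f F u → ∀ χ, Test Ω χ →
      ∀ (l : Fin n) (τ : ℝ),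
      ∑ i, ∑ j, ∫ x, (χ (x + τ • EuclideanSpace.single l (1 : ℝ)) *
            gr u (x + τ • EuclideanSpace.single l (1 : ℝ)) *
            nu u i (x + τ • EuclideanSpace.single l (1 : ℝ)) *
            nu u j (x + τ • EuclideanSpace.single l (1 : ℝ))
          - χ x * gr u x * nu u i x * nu u j x) ^ 2 ≤
        C * ((∫ x, (χ (x + τ • EuclideanSpace.single l (1 : ℝ)) *
            gr u (x + τ • EuclideanSpace.single l (1 : ℝ)) - χ x * gr u x) ^ 2) +
          |τ| * (1 + |τ|) * ((∫ x, χ x ^ 2 * Wsq f u x) + (∫ x, gsq χ x * gsq u x) +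
            ∫ x, χ x ^ 2 * gsq u x))

/-- tail of a bad sequence -/
structure Tail (u : ℕ → E n → ℝ) (f F : ℕ → ℝ → ℝ) (CE CW : ℝ) : Prop where
  st : ∀ k, Stable (Ann n 5) (f k) (F k) (u k)
  en : ∀ k, ∫ x in CA n 4, gsq (u k) x ≤ CE
  wb : ∀ k, ∫ x in CA n 4, Wsq (f k) (u k) x ≤ CW
  cub : ∀ (i j l : Fin n) (a : E n → ℝ), Test (Ann n 4) a → Tendsto (fun k =>
    ∫ x, f k (u k x) * gr (u k) x * nu (u k) i x * nu (u k) j x * nu (u k) l x * a x)
    atTop (𝓝 0)
  tr : ∀ ε > 0, ∃ δ > 0, ∀ᶠ k in atTop, ∀ y : E n, ‖y‖ ≤ δ →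
    ∫ x in CA n 4, |gsq (u k) (x + y) - gsq (u k) x| ≤ ε

section Fns
variable (χ : E n → ℝ) (u : E n → ℝ) (f : ℝ → ℝ)

noncomputable def tf (x : E n) : ℝ := χ x * gr u x
noncomputable def Pf (i j : Fin n) (x : E n) : ℝ := χ x * gr u x * nu u i x * nu u j x
noncomputable def Vf (k i l : Fin n) (x : E n) : ℝ := χ x * Wt f u k i x * nu u l x

end Fns

section One
variable {χ : E n → ℝ} {u : E n → ℝ} {f F : ℝ → ℝ} {Ω : Set (E n)}

theorem sum_Pf (x : E n) : ∑ i, Pf χ u i i x = tf χ u x := by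
  unfold Pf tf
  have : ∀ i, χ x * gr u x * nu u i x * nu u i x = χ x * (nu u i x * pd i u x) := by
    intro i; rw [← gr_mul_nu u i x]; ring
  simp_rw [this]
  rw [← Finset.mul_sum, sum_nu_mul_pd]

theorem memLp_tf (hu : ContDiff ℝ ∞ u) (hχ : Test Ω χ) : MemLp (tf χ u) 2 volume := by
  have hc : Continuous (tf χ u) := hχ.continuous.mul (continuous_gr (hu.of_le one_le_infty))
  exact hc.memLp_of_hasCompactSupport hχ.compact.mul_right

theorem measurable_Pf (hu : ContDiff ℝ ∞ u) (hχ : Test Ω χ) (i j : Fin n) :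
    Measurable (Pf χ u i j) := by
  have h1 := hu.of_le one_le_infty
  exact ((hχ.continuous.mul (continuous_gr h1)).measurable.mul (measurable_nu h1 i)).mul
    (measurable_nu h1 j)

theorem abs_Pf_le (i j : Fin n) (x : E n) : |Pf χ u i j x| ≤ |tf χ u x| := by
  unfold Pf tf
  rw [abs_mul, abs_mul]
  have h1 := abs_nu_le u i x
  have h2 := abs_nu_le u j x
  have h3 := abs_nonneg (χ x * gr u x)
  calc |χ x * gr u x| * |nu u i x| * |nu u j x| ≤ |χ x * gr u x| * 1 * 1 := by gcongr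
    _ = _ := by ring

theorem memLp_Pf (hu : ContDiff ℝ ∞ u) (hχ : Test Ω χ) (i j : Fin n) :
    MemLp (Pf χ u i j) 2 volume :=
  (memLp_tf hu hχ).mono (measurable_Pf hu hχ i j).aestronglyMeasurable
    (ae_of_all _ fun x => by rw [Real.norm_eq_abs, Real.norm_eq_abs]; exact abs_Pf_le i j x)

theorem tf_sq (x : E n) : tf χ u x ^ 2 = χ x ^ 2 * gsq u x := by
  unfold tf
  rw [mul_pow, gr_sq]

theorem Pf_sq_le (i j : Fin n) (x : E n) : Pf χ u i j x ^ 2 ≤ χ x ^ 2 * gsq u x := by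
  rw [← tf_sq, ← sq_abs (Pf χ u i j x), ← sq_abs (tf χ u x)]
  exact pow_le_pow_left₀ (abs_nonneg _) (abs_Pf_le i j x) 2

theorem Vf_sq_le (k i l : Fin n) (x : E n) : Vf χ u f k i l x ^ 2 ≤ Wsq f u x * χ x ^ 2 := by
  unfold Vf
  have h1 := Wt_sq_le f u k i x
  have h2 : nu u l x ^ 2 ≤ 1 := by
    rw [← sq_abs]
    have := abs_nu_le u l x
    nlinarith [abs_nonneg (nu u l x)]
  have h3 : 0 ≤ Wt f u k i x ^ 2 := sq_nonneg _
  calc (χ x * Wt f u k i x * nu u l x) ^ 2 = (χ x ^ 2 * Wt f u k i x ^ 2) * nu u l x ^ 2 := by ring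
    _ ≤ (χ x ^ 2 * Wt f u k i x ^ 2) * 1 := by gcongr
    _ ≤ Wsq f u x * χ x ^ 2 := by nlinarith [sq_nonneg (χ x)]

theorem memLp_Vf (h : Stable Ω f F u) (hχ : Test Ω χ) (k i l : Fin n) :
    MemLp (Vf χ u f k i l) 2 volume := by
  have h1 := h.smooth.of_le one_le_infty
  have hm : Measurable (Vf χ u f k i l) :=
    (hχ.continuous.measurable.mul (measurable_Wt h k i)).mul (measurable_nu h1 l)
  rw [memLp_two_iff_integrable_sq hm.aestronglyMeasurable]
  have hc : HasCompactSupport (fun x => χ x ^ 2) := by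
    have := hχ.compact.comp_left (g := fun t : ℝ => t ^ 2) (by norm_num)
    exact this
  have hcont : Continuous (fun x => χ x ^ 2) := hχ.continuous.pow 2
  refine (integrable_Wsq_mul h hcont hc).mono' (hm.pow_const 2).aestronglyMeasurable
    (ae_of_all _ fun x => ?_)
  rw [Real.norm_eq_abs, abs_of_nonneg (sq_nonneg _)]
  exact Vf_sq_le k i l x

theorem integral_mul_chi_le {g : E n → ℝ} {K : Set (E n)} (hK : IsCompact K)
    (hg : IntegrableOn g K volume) (hg0 : ∀ x, 0 ≤ g x) {w : E n → ℝ}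
    (hw : ∀ x, w x ≤ 1) (hw0 : ∀ x, 0 ≤ w x) (hwK : ∀ x ∉ K, w x = 0)
    (hint : Integrable (fun x => g x * w x) volume) : ∫ x, g x * w x ≤ ∫ x in K, g x := by
  rw [← integral_indicator hK.measurableSet]
  apply integral_mono hint ((integrable_indicator_iff hK.measurableSet).2 hg)
  intro x
  by_cases hx : x ∈ K
  · rw [Set.indicator_of_mem hx]
    exact mul_le_of_le_one_right (hg0 x) (hw x)
  · rw [Set.indicator_of_notMem hx]
    simp only
    rw [hwK x hx, mul_zero]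

end One

end SW

end Pool.Agent.H94.Stab
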