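import Pool.Agent.H58.Stab.M11b

set_option autoImplicit false

open MeasureTheory Set Filter Topology
open scoped ContDiff

namespace Pool.Agent.H94.Stab

namespace SW

variable {n : ℕ} {χ : E n → ℝ} {u : ℕ → E n → ℝ} {f F : ℕ → ℝ → ℝ} {CE CW : ℝ}

theorem Tail.CE_nonneg (hT : Tail u f F CE CW) : 0 ≤ CE :=
  le_trans (integral_nonneg fun x => gsq_nonneg _ x) (hT.en 0)

theorem Tail.CW_nonneg (hT : Tail u f F CE CW) : 0 ≤ CW :=
  le_trans (integral_nonneg fun x => Wsq_nonneg _ _ x) (hT.wb 0)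

theorem chi_zero (hχ : Test (Ann n 3) χ) {x : E n} (hx : x ∉ CA n 4) : χ x = 0 :=
  hχ.zero_of_notMem fun h => hx (Ann_subset_CA (by norm_num) h)

theorem Tail.chi_gsq (hT : Tail u f F CE CW) (hχ : Test (Ann n 3) χ) (h0 : ∀ x, 0 ≤ χ x)
    (h1 : ∀ x, χ x ≤ 1) (k : ℕ) : ∫ x, χ x ^ 2 * gsq (u k) x ≤ CE := by
  refine le_trans ?_ (hT.en k)
  have hc := continuous_gsq ((hT.st k).smooth.of_le one_le_infty)
  have e : ∀ x, χ x ^ 2 * gsq (u k) x = gsq (u k) x * χ x ^ 2 := fun x => by ring
  simp_rw [e]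
  refine integral_mul_chi_le (isCompact_CA n 4) (hc.continuousOn.integrableOn_compact
    (isCompact_CA n 4)) (fun x => gsq_nonneg _ x) ?_ (fun x => sq_nonneg _) ?_ ?_
  · intro x
    exact pow_le_one₀ (h0 x) (h1 x)
  · intro x hx
    rw [chi_zero hχ hx]; norm_num
  · have := (memLp_tf (hT.st k).smooth hχ).integrable_sq
    refine this.congr (ae_of_all _ fun x => ?_)
    simp only
    rw [tf_sq]; ring

theorem Tail.chi_Wsq (hT : Tail u f F CE CW) (hχ : Test (Ann n 3) χ) (h0 : ∀ x, 0 ≤ χ x)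
    (h1 : ∀ x, χ x ≤ 1) (k : ℕ) : ∫ x, Wsq (f k) (u k) x * χ x ^ 2 ≤ CW := by
  refine le_trans ?_ (hT.wb k)
  have hc : HasCompactSupport (fun x => χ x ^ 2) := by
    have := hχ.compact.comp_left (g := fun t : ℝ => t ^ 2) (by norm_num)
    exact this
  have hcont : Continuous (fun x => χ x ^ 2) := hχ.continuous.pow 2
  refine integral_mul_chi_le (isCompact_CA n 4) (integrableOn_Wsq (hT.st k) (isCompact_CA n 4))
    (fun x => Wsq_nonneg _ _ x) ?_ (fun x => sq_nonneg _) ?_
    (integrable_Wsq_mul (hT.st k) hcont hc)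
  · intro x
    exact pow_le_one₀ (h0 x) (h1 x)
  · intro x hx
    rw [chi_zero hχ hx]; norm_num

theorem Tail.P_bd (hT : Tail u f F CE CW) (hχ : Test (Ann n 3) χ) (h0 : ∀ x, 0 ≤ χ x)
    (h1 : ∀ x, χ x ≤ 1) (i j : Fin n) (k : ℕ) : ∫ x, Pf χ (u k) i j x ^ 2 ≤ CE := by
  refine le_trans ?_ (hT.chi_gsq hχ h0 h1 k)
  refine integral_mono (memLp_Pf (hT.st k).smooth hχ i j).integrable_sq ?_
    (fun x => Pf_sq_le i j x)
  have := (memLp_tf (hT.st k).smooth hχ).integrable_sq
  refine this.congr (ae_of_all _ fun x => ?_)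
  simp only
  rw [tf_sq]

theorem Tail.V_bd (hT : Tail u f F CE CW) (hχ : Test (Ann n 3) χ) (h0 : ∀ x, 0 ≤ χ x)
    (h1 : ∀ x, χ x ≤ 1) (i j l : Fin n) (k : ℕ) : ∫ x, Vf χ (u k) (f k) i j l x ^ 2 ≤ CW := by
  refine le_trans ?_ (hT.chi_Wsq hχ h0 h1 k)
  have hc : HasCompactSupport (fun x => χ x ^ 2) := by
    have := hχ.compact.comp_left (g := fun t : ℝ => t ^ 2) (by norm_num)
    exact this
  have hcont : Continuous (fun x => χ x ^ 2) := hχ.continuous.pow 2
  exact integral_mono (memLp_Vf (hT.st k) (hχ.mono ((Ann_subset_CA (by norm_num)).trans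
    (CA_subset_Ann (by norm_num : (4:ℝ) < 5)))) i j l).integrable_sq
    (integrable_Wsq_mul (hT.st k) hcont hc) (fun x => Vf_sq_le i j l x)

theorem mem_CA_of_shift {x h : E n} (hx : x + h ∈ Ann n 3) (hh : ‖h‖ ≤ Real.exp (-3) - Real.exp (-4)) :
    x ∈ CA n 4 := by
  have h1 : ‖x + h‖ ≤ ‖x‖ + ‖h‖ := norm_add_le _ _
  have h2 : ‖x‖ ≤ ‖x + h‖ + ‖h‖ := by
    calc ‖x‖ = ‖(x + h) - h‖ := by congr 1; abel
      _ ≤ _ := norm_sub_le _ _
  have h3 := hx.1
  have h4 := hx.2
  have h5 : Real.exp 4 = Real.exp 3 * Real.exp 1 := by rw [← Real.exp_add]; norm_num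
  have h6 : (2 : ℝ) ≤ Real.exp 1 := by
    have := Real.add_one_le_exp (1 : ℝ); linarith
  have h7 : Real.exp (-3) ≤ 1 := Real.exp_le_one_iff.2 (by norm_num)
  have h8 : (1 : ℝ) ≤ Real.exp 3 := Real.one_le_exp (by norm_num)
  have h9 := Real.exp_pos (-4)
  constructor
  · linarith
  · nlinarith

theorem Tail.t_trans (hT : Tail u f F CE CW) (hχ : Test (Ann n 3) χ) (h0 : ∀ x, 0 ≤ χ x)
    (h1 : ∀ x, χ x ≤ 1) : ∀ ε > 0, ∃ δ > 0, ∀ᶠ k in atTop, ∀ h : E n, ‖h‖ ≤ δ →
      ∫ x, (tf χ (u k) (x + h) - tf χ (u k) x) ^ 2 ≤ ε := by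
  intro ε hε
  have hCE := hT.CE_nonneg
  obtain ⟨δ₁, hδ₁, h2⟩ := hT.tr (ε / 2) (by positivity)
  have hc : HasCompactSupport (fun x => χ x ^ 2) := by
    have := hχ.compact.comp_left (g := fun t : ℝ => t ^ 2) (by norm_num)
    exact this
  have hcont : Continuous (fun x => χ x ^ 2) := hχ.continuous.pow 2
  have huc : UniformContinuous (fun x => χ x ^ 2) := hc.uniformContinuous_of_continuous hcont
  obtain ⟨δ₂, hδ₂, h3⟩ := Metric.uniformContinuous_iff.1 huc (ε / (2 * (CE + 1))) (by positivity)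
  have hδ₃ : 0 < Real.exp (-3) - Real.exp (-4) := by
    have := Real.exp_lt_exp.2 (by norm_num : (-4 : ℝ) < -3)
    linarith
  refine ⟨min δ₁ (min (δ₂ / 2) (Real.exp (-3) - Real.exp (-4))), by positivity, ?_⟩
  filter_upwards [h2] with k hk h hh
  have hh1 : ‖h‖ ≤ δ₁ := hh.trans (min_le_left _ _)
  have hh2 : ‖h‖ < δ₂ := by
    have := hh.trans ((min_le_right _ _).trans (min_le_left _ _))
    linarith
  have hh3 : ‖h‖ ≤ Real.exp (-3) - Real.exp (-4) :=
    hh.trans ((min_le_right _ _).trans (min_le_right _ _))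
  have hg := continuous_gsq ((hT.st k).smooth.of_le one_le_infty)
  have hK := isCompact_CA n 4
  have hsh : Continuous (fun x => gsq (u k) (x + h)) := hg.comp (continuous_add_right h)
  have I1 : IntegrableOn (fun x => |gsq (u k) (x + h) - gsq (u k) x|) (CA n 4) volume :=
    (hsh.sub hg).abs.continuousOn.integrableOn_compact hK
  have I2 : IntegrableOn (fun x => ε / (2 * (CE + 1)) * gsq (u k) x) (CA n 4) volume :=
    (continuous_const.mul hg).continuousOn.integrableOn_compact hK
  have hmem := memLp_tf (u := u k) (hT.st k).smooth hχ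
  calc ∫ x, (tf χ (u k) (x + h) - tf χ (u k) x) ^ 2
      ≤ ∫ x, (CA n 4).indicator (fun x => |gsq (u k) (x + h) - gsq (u k) x| +
          ε / (2 * (CE + 1)) * gsq (u k) x) x := by
        apply integral_mono
        · exact ((hmem.comp_measurePreserving (measurePreserving_add_right volume h)).sub
            hmem).integrable_sq
        · exact (integrable_indicator_iff hK.measurableSet).2 (I1.add I2)
        · intro x
          simp only
          set a := tf χ (u k) (x + h) with ha
          set b := tf χ (u k) x with hb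
          have ha0 : 0 ≤ a := mul_nonneg (h0 _) (gr_nonneg _ _)
          have hb0 : 0 ≤ b := mul_nonneg (h0 _) (gr_nonneg _ _)
          have hab : (a - b) ^ 2 ≤ |a ^ 2 - b ^ 2| := by
            have : a ^ 2 - b ^ 2 = (a - b) * (a + b) := by ring
            rw [this, abs_mul, abs_of_nonneg (add_nonneg ha0 hb0), ← sq_abs (a - b), sq]
            gcongr
            rw [abs_le]; constructor <;> linarith
          have ea : a ^ 2 = χ (x + h) ^ 2 * gsq (u k) (x + h) := tf_sq _
          have eb : b ^ 2 = χ x ^ 2 * gsq (u k) x := tf_sq _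
          by_cases hx : x ∈ CA n 4
          · rw [Set.indicator_of_mem hx]
            refine hab.trans ?_
            rw [ea, eb]
            have e : χ (x + h) ^ 2 * gsq (u k) (x + h) - χ x ^ 2 * gsq (u k) x =
                χ (x + h) ^ 2 * (gsq (u k) (x + h) - gsq (u k) x) +
                (χ (x + h) ^ 2 - χ x ^ 2) * gsq (u k) x := by ring
            rw [e]
            refine (abs_add_le _ _).trans ?_
            rw [abs_mul, abs_mul, abs_of_nonneg (sq_nonneg (χ (x + h))),
              abs_of_nonneg (gsq_nonneg (u k) x)]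
            have h4 : χ (x + h) ^ 2 ≤ 1 := pow_le_one₀ (h0 _) (h1 _)
            have h5 : |χ (x + h) ^ 2 - χ x ^ 2| ≤ ε / (2 * (CE + 1)) := by
              have h6 : dist (x + h) x < δ₂ := by
                rw [dist_eq_norm]; simpa using hh2
              have := h3 h6
              rw [Real.dist_eq] at this
              exact this.le
            have h7 := gsq_nonneg (u k) x
            have h8 := abs_nonneg (gsq (u k) (x + h) - gsq (u k) x)
            calc χ (x + h) ^ 2 * |gsq (u k) (x + h) - gsq (u k) x| +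
                  |χ (x + h) ^ 2 - χ x ^ 2| * gsq (u k) x
                ≤ 1 * |gsq (u k) (x + h) - gsq (u k) x| + ε / (2 * (CE + 1)) * gsq (u k) x := by
                  gcongr
              _ = _ := by ring
          · rw [Set.indicator_of_notMem hx]
            have h4 : χ (x + h) = 0 := hχ.zero_of_notMem fun h' => hx (mem_CA_of_shift h' hh3)
            have h5 : χ x = 0 := chi_zero hχ hx
            have h6 : a = 0 := by rw [ha]; unfold tf; rw [h4, zero_mul]
            have h7 : b = 0 := by rw [hb]; unfold tf; rw [h5, zero_mul]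
            rw [h6, h7]; norm_num
    _ = ∫ x in CA n 4, (|gsq (u k) (x + h) - gsq (u k) x| +
          ε / (2 * (CE + 1)) * gsq (u k) x) := integral_indicator hK.measurableSet
    _ = (∫ x in CA n 4, |gsq (u k) (x + h) - gsq (u k) x|) +
          ε / (2 * (CE + 1)) * ∫ x in CA n 4, gsq (u k) x := by
        rw [integral_add I1 I2, integral_const_mul]
    _ ≤ ε / 2 + ε / (2 * (CE + 1)) * CE := by
        gcongr
        · exact hk h hh1
        · exact hT.en k
    _ ≤ ε := by
        have : ε / (2 * (CE + 1)) * CE ≤ ε / 2 := by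
          rw [div_mul_eq_mul_div, div_le_div_iff₀ (by positivity) (by norm_num)]
          nlinarith
        linarith

theorem Tail.P_trans (hT : Tail u f F CE CW) (hPT : SPT n) (hχ : Test (Ann n 3) χ)
    (h0 : ∀ x, 0 ≤ χ x) (h1 : ∀ x, χ x ≤ 1) (i j : Fin n) :
    ∀ ε > 0, ∃ δ > 0, ∀ᶠ k in atTop, ∀ h : E n, ‖h‖ ≤ δ →
      ∫ x, (Pf χ (u k) i j (x + h) - Pf χ (u k) i j x) ^ 2 ≤ ε := by
  intro ε hε
  obtain ⟨C, hC, hP⟩ := hPT
  have hCE := hT.CE_nonneg
  have hCW := hT.CW_nonneg
  obtain ⟨M, hM⟩ := (continuous_gsq hχ.c1).bounded_above_of_compact_support (by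
    refine hχ.compact.of_isClosed_subset (isClosed_tsupport _) (closure_minimal ?_
      (isClosed_tsupport _))
    intro x hx
    by_contra hcon
    apply hx
    rw [gsq_eq_zero_iff]
    intro l
    exact image_eq_zero_of_notMem_tsupport fun h' => hcon (tsupport_pd_subset l χ h'))
  have hM0 : 0 ≤ M := le_trans (norm_nonneg _) (hM 0)
  set D := CW + M * CE + CE with hD
  have hD0 : 0 ≤ D := by positivity
  set ε₁ := ε / ((n : ℝ) ^ 2 + 1) with hε₁
  have hε₁0 : 0 < ε₁ := by positivity
  obtain ⟨δ₁, hδ₁, h2⟩ := hT.t_trans hχ h0 h1 (ε₁ / (2 * (C + 1))) (by positivity)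
  refine ⟨min δ₁ (min 1 (ε₁ / (4 * (C + 1) * (D + 1)))), by positivity, ?_⟩
  filter_upwards [h2] with k hk h hh
  have hgI : Integrable (fun x => gsq χ x * gsq (u k) x) volume := by
    have hg1 : Continuous (gsq χ) := continuous_gsq hχ.c1
    have hg2 := continuous_gsq ((hT.st k).smooth.of_le one_le_infty)
    refine (hg1.mul hg2).integrable_of_hasCompactSupport ?_
    refine hχ.compact.of_isClosed_subset (isClosed_tsupport _) (closure_minimal ?_
      (isClosed_tsupport _))
    intro x hx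
    by_contra hcon
    apply hx
    have : gsq χ x = 0 := by
      rw [gsq_eq_zero_iff]
      intro l
      exact image_eq_zero_of_notMem_tsupport fun h' => hcon (tsupport_pd_subset l χ h')
    show gsq χ x * gsq (u k) x = 0
    rw [this, zero_mul]
  have key : ∀ (l : Fin n) (τ : ℝ), |τ| ≤ min δ₁ (min 1 (ε₁ / (4 * (C + 1) * (D + 1)))) →
      ∫ x, (Pf χ (u k) i j (x + τ • EuclideanSpace.single l (1 : ℝ)) - Pf χ (u k) i j x) ^ 2
        ≤ ε₁ := by
    intro l τ hτ
    have ht1 : |τ| ≤ δ₁ := hτ.trans (min_le_left _ _)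
    have ht2 : |τ| ≤ 1 := hτ.trans ((min_le_right _ _).trans (min_le_left _ _))
    have ht3 : |τ| ≤ ε₁ / (4 * (C + 1) * (D + 1)) :=
      hτ.trans ((min_le_right _ _).trans (min_le_right _ _))
    have h3 := hP (Ann n 5) (f k) (F k) (u k) (hT.st k) χ (hχ.mono ((Ann_subset_CA
      (by norm_num)).trans (CA_subset_Ann (by norm_num : (4:ℝ) < 5)))) l τ
    have h4 : ∫ x, (Pf χ (u k) i j (x + τ • EuclideanSpace.single l (1 : ℝ)) -
        Pf χ (u k) i j x) ^ 2 ≤ ∑ i, ∑ j, ∫ x, (Pf χ (u k) i j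
          (x + τ • EuclideanSpace.single l (1 : ℝ)) - Pf χ (u k) i j x) ^ 2 := by
      have e1 := Finset.single_le_sum (f := fun j => ∫ x, (Pf χ (u k) i j
          (x + τ • EuclideanSpace.single l (1 : ℝ)) - Pf χ (u k) i j x) ^ 2)
          (fun _ _ => integral_nonneg fun x => sq_nonneg _) (Finset.mem_univ j)
      have e2 := Finset.single_le_sum (f := fun i => ∑ j, ∫ x, (Pf χ (u k) i j
          (x + τ • EuclideanSpace.single l (1 : ℝ)) - Pf χ (u k) i j x) ^ 2)
          (fun _ _ => Finset.sum_nonneg fun _ _ => integral_nonneg fun x => sq_nonneg _)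
          (Finset.mem_univ i)
      exact e1.trans e2
    refine h4.trans (h3.trans ?_)
    have h5 : ∫ x, (tf χ (u k) (x + τ • EuclideanSpace.single l (1 : ℝ)) - tf χ (u k) x) ^ 2 ≤
        ε₁ / (2 * (C + 1)) := by
      apply hk
      rw [norm_smul, EuclideanSpace.norm_single, norm_one, mul_one, Real.norm_eq_abs]
      exact ht1
    have h6 : (∫ x, χ x ^ 2 * Wsq (f k) (u k) x) ≤ CW := by
      refine le_trans (le_of_eq ?_) (hT.chi_Wsq hχ h0 h1 k)
      congr 1; ext x; ring
    have h7 : ∫ x, gsq χ x * gsq (u k) x ≤ M * CE := by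
      have hg2 := continuous_gsq ((hT.st k).smooth.of_le one_le_infty)
      calc ∫ x, gsq χ x * gsq (u k) x ≤ ∫ x, (CA n 4).indicator (fun x => M * gsq (u k) x) x := by
            apply integral_mono hgI
            · exact (integrable_indicator_iff (isCompact_CA n 4).measurableSet).2
                ((continuous_const.mul hg2).continuousOn.integrableOn_compact (isCompact_CA n 4))
            · intro x
              simp only
              by_cases hx : x ∈ CA n 4
              · rw [Set.indicator_of_mem hx]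
                have := hM x
                rw [Real.norm_eq_abs, abs_of_nonneg (gsq_nonneg χ x)] at this
                exact mul_le_mul_of_nonneg_right this (gsq_nonneg _ _)
              · rw [Set.indicator_of_notMem hx]
                have : gsq χ x = 0 := by
                  rw [gsq_eq_zero_iff]
                  intro l'
                  exact (hχ.pd l').zero_of_notMem fun h' => hx (Ann_subset_CA (by norm_num) h')
                rw [this, zero_mul]
        _ = ∫ x in CA n 4, M * gsq (u k) x := integral_indicator (isCompact_CA n 4).measurableSet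
        _ = M * ∫ x in CA n 4, gsq (u k) x := integral_const_mul _ _
        _ ≤ M * CE := by gcongr; exact hT.en k
    have h8 := hT.chi_gsq hχ h0 h1 k
    have h9 : (∫ x, χ x ^ 2 * Wsq (f k) (u k) x) + (∫ x, gsq χ x * gsq (u k) x) +
        (∫ x, χ x ^ 2 * gsq (u k) x) ≤ D := by rw [hD]; linarith
    have h10 : |τ| * (1 + |τ|) ≤ ε₁ / (2 * (C + 1) * (D + 1)) := by
      calc |τ| * (1 + |τ|) ≤ ε₁ / (4 * (C + 1) * (D + 1)) * (1 + 1) := by gcongr
        _ = ε₁ / (2 * (C + 1) * (D + 1)) := by field_simp; ring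
    calc C * ((∫ x, (tf χ (u k) (x + τ • EuclideanSpace.single l (1 : ℝ)) - tf χ (u k) x) ^ 2) +
          |τ| * (1 + |τ|) * ((∫ x, χ x ^ 2 * Wsq (f k) (u k) x) +
            (∫ x, gsq χ x * gsq (u k) x) + ∫ x, χ x ^ 2 * gsq (u k) x))
        ≤ C * (ε₁ / (2 * (C + 1)) + ε₁ / (2 * (C + 1) * (D + 1)) * D) := by
          have hnn : 0 ≤ (∫ x, χ x ^ 2 * Wsq (f k) (u k) x) +
            (∫ x, gsq χ x * gsq (u k) x) + ∫ x, χ x ^ 2 * gsq (u k) x := by
            have a1 : 0 ≤ ∫ x, χ x ^ 2 * Wsq (f k) (u k) x :=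
              integral_nonneg fun x => mul_nonneg (sq_nonneg _) (Wsq_nonneg _ _ _)
            have a2 : 0 ≤ ∫ x, gsq χ x * gsq (u k) x :=
              integral_nonneg fun x => mul_nonneg (gsq_nonneg _ _) (gsq_nonneg _ _)
            have a3 : 0 ≤ ∫ x, χ x ^ 2 * gsq (u k) x :=
              integral_nonneg fun x => mul_nonneg (sq_nonneg _) (gsq_nonneg _ _)
            positivity
          gcongr
      _ ≤ ε₁ := by
          have b1 : ε₁ / (2 * (C + 1) * (D + 1)) * D ≤ ε₁ / (2 * (C + 1)) := by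
            rw [div_mul_eq_mul_div, div_le_div_iff₀ (by positivity) (by positivity)]
            have : 0 ≤ ε₁ * (2 * (C + 1)) := by positivity
            nlinarith
          have b2 : ε₁ / (2 * (C + 1)) + ε₁ / (2 * (C + 1) * (D + 1)) * D ≤ ε₁ / (C + 1) := by
            have : ε₁ / (C + 1) = ε₁ / (2 * (C + 1)) + ε₁ / (2 * (C + 1)) := by field_simp; ring
            linarith
          calc C * (ε₁ / (2 * (C + 1)) + ε₁ / (2 * (C + 1) * (D + 1)) * D)
              ≤ C * (ε₁ / (C + 1)) := by gcongr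
            _ ≤ ε₁ := by
                rw [← mul_div_assoc, div_le_iff₀ (by positivity)]
                nlinarith
  have h3 := trans_of_coord (memLp_Pf (hT.st k).smooth hχ i j) key hε₁0.le h hh
  refine h3.trans ?_
  rw [hε₁, ← mul_div_assoc, div_le_iff₀ (by positivity)]
  nlinarith

end SW

end Pool.Agent.H94.Stab
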