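import Pool.Agent.H58.Stab.M11c

set_option autoImplicit false

open MeasureTheory Set Filter Topology
open scoped ContDiff

namespace Pool.Agent.H94.Stab

namespace SW

variable {n : ℕ} {χ : E n → ℝ} {u : ℕ → E n → ℝ} {f F : ℕ → ℝ → ℝ} {CE CW : ℝ}

/-- statement of `bochner` -/
def SB (n : ℕ) : Prop := ∀ {A : Set (E n)} (_ : IsOpen A) (s : E n → ℝ)
    (S : Fin n → Fin n → E n → ℝ) (V : Fin n → Fin n → Fin n → E n → ℝ)
    (_ : MemLp s 2 volume) (_ : ∀ i j, MemLp (S i j) 2 volume)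
    (_ : ∀ k i l, MemLp (V k i l) 2 volume)
    (_ : ∀ᵐ x, x ∈ A → 0 ≤ s x)
    (_ : ∀ i j, ∀ᵐ x, x ∈ A → S i j x = S j i x)
    (_ : ∀ᵐ x, x ∈ A → ∑ i, S i i x = s x)
    (_ : ∀ i j k l, ∀ᵐ x, x ∈ A → S i j x * S k l x = S i l x * S k j x)
    (_ : ∀ k i l, ∀ᵐ x, x ∈ A → V k i l x = V i k l x)
    (_ : ∀ l, ∀ᵐ x, x ∈ A → ∑ k, V k k l x = 0)
    (_ : ∀ k i l, ∀ᵐ x, x ∈ A → ∑ m, V k i m x * S m l x = s x * V k i l x)
    (_ : ∀ φ, Test A φ → ∀ i j k, ∫ x, s x * S i j x * pd k φ x =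
      - ∫ x, s x * (V k i j x + V k j i x) * φ x),
    ∀ φ, Test A φ → (∀ x, 0 ≤ φ x) → 0 ≤ ∫ x, s x ^ 2 * ∑ i, pd i (pd i φ) x

theorem isOpen_Ann (n : ℕ) (r : ℝ) : IsOpen (Ann n r) :=
  (isOpen_lt continuous_const continuous_norm).inter (isOpen_lt continuous_norm continuous_const)

/-- integration by parts identity at level `k` -/
theorem level_der {Ω A : Set (E n)} {f F : ℝ → ℝ} {u : E n → ℝ} (h : Stable Ω f F u)
    (hχ : Test Ω χ) (hχ1 : ∀ x ∈ A, χ x = 1) {φ : E n → ℝ} (hφ : Test A φ) (hA : A ⊆ Ω)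
    (i j k : Fin n) :
    ∫ x, tf χ u x * Pf χ u i j x * pd k φ x =
      - (∫ x, tf χ u x * Vf χ u f k i j x * φ x) - (∫ x, tf χ u x * Vf χ u f k j i x * φ x)
        + 2 * ∫ x, f (u x) * gr u x * nu u k x * nu u i x * nu u j x * φ x := by
  have hu1 := h.smooth.of_le one_le_infty
  have hu2 := h.smooth.of_le two_le_infty
  have hpi : ContDiff ℝ 1 (pd i u) := (contDiff_pd_infty i h.smooth).of_le one_le_infty
  have hpj : ContDiff ℝ 1 (pd j u) := (contDiff_pd_infty j h.smooth).of_le one_le_infty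
  have hpij : ContDiff ℝ 1 (fun x => pd i u x * pd j u x) := hpi.mul hpj
  have hφ1 := hφ.c1
  -- LHS
  have e1 : ∀ x, tf χ u x * Pf χ u i j x * pd k φ x = pd i u x * pd j u x * pd k φ x := by
    intro x
    by_cases hx : x ∈ A
    · unfold tf Pf
      rw [hχ1 x hx]
      have : (1 * gr u x) * (1 * gr u x * nu u i x * nu u j x) = pd i u x * pd j u x := by
        rw [← gr_mul_nu u i x, ← gr_mul_nu u j x]; ring
      rw [this]
    · rw [(hφ.pd k).zero_of_notMem hx]; simp
  have e2 : ∀ x, tf χ u x * Vf χ u f k i j x * φ x = Wt f u k i x * pd j u x * φ x := by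
    intro x
    by_cases hx : x ∈ A
    · unfold tf Vf
      rw [hχ1 x hx, ← gr_mul_nu u j x]; ring
    · rw [hφ.zero_of_notMem hx]; simp
  have e3 : ∀ x, tf χ u x * Vf χ u f k j i x * φ x = Wt f u k j x * pd i u x * φ x := by
    intro x
    by_cases hx : x ∈ A
    · unfold tf Vf
      rw [hχ1 x hx, ← gr_mul_nu u i x]; ring
    · rw [hφ.zero_of_notMem hx]; simp
  simp_rw [e1, e2, e3]
  -- pointwise: W_ki u_j + W_kj u_i - 2 f gr nnn = d_k(u_i u_j)
  have e4 : ∀ x, Wt f u k i x * pd j u x * φ x + Wt f u k j x * pd i u x * φ x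
      - 2 * (f (u x) * gr u x * nu u k x * nu u i x * nu u j x * φ x) =
      pd k (fun x => pd i u x * pd j u x) x * φ x := by
    intro x
    rw [pd_mul k (hpi.differentiable (by norm_num) x) (hpj.differentiable (by norm_num) x)]
    unfold Wt
    rw [← gr_mul_nu u j x, ← gr_mul_nu u i x]
    ring
  have c1 : Continuous (fun x => pd k (fun x => pd i u x * pd j u x) x * φ x) :=
    (continuous_pd k hpij).mul hφ.continuous
  have I0 : Integrable (fun x => pd k (fun x => pd i u x * pd j u x) x * φ x) volume :=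
    hφ.integrable_mul (continuous_pd k hpij)
  -- integrability of the three parts via L² functions
  have ht := memLp_tf h.smooth hχ
  have hφb : ∃ M : ℝ, ∀ x, |φ x| ≤ M := by
    obtain ⟨M, hM⟩ := hφ.continuous.bounded_above_of_compact_support hφ.compact
    exact ⟨M, fun x => by rw [← Real.norm_eq_abs]; exact hM x⟩
  obtain ⟨M, hM⟩ := hφb
  have I1 : Integrable (fun x => Wt f u k i x * pd j u x * φ x) volume := by
    have := integrable_mul3 ht (memLp_Vf h hχ k i j) hφ.continuous.measurable hM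
    exact this.congr (ae_of_all _ fun x => e2 x)
  have I2 : Integrable (fun x => Wt f u k j x * pd i u x * φ x) volume := by
    have := integrable_mul3 ht (memLp_Vf h hχ k j i) hφ.continuous.measurable hM
    exact this.congr (ae_of_all _ fun x => e3 x)
  have I3 : Integrable (fun x => f (u x) * gr u x * nu u k x * nu u i x * nu u j x * φ x)
      volume := by
    have := ((I1.add I2).sub I0).const_mul (1 / 2)
    refine this.congr (ae_of_all _ fun x => ?_)
    have := e4 x
    simp only [Pi.sub_apply, Pi.add_apply]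
    linarith
  have h5 : (∫ x, Wt f u k i x * pd j u x * φ x) + (∫ x, Wt f u k j x * pd i u x * φ x)
      - 2 * ∫ x, f (u x) * gr u x * nu u k x * nu u i x * nu u j x * φ x =
      ∫ x, pd k (fun x => pd i u x * pd j u x) x * φ x := by
    have j1 := integral_sub (I1.add I2) (I3.const_mul 2)
    simp only [Pi.add_apply] at j1
    rw [← integral_add I1 I2, ← integral_const_mul, ← j1]
    congr 1; ext x
    exact e4 x
  have h6 : ∫ x, pd i u x * pd j u x * pd k φ x =
      - ∫ x, pd k (fun x => pd i u x * pd j u x) x * φ x :=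
    integral_mul_pd' k hpij hφ1 hφ.compact
  rw [h6, ← h5]
  ring

theorem main_tail (hT : Tail u f F CE CW) (hPT : SPT n) (hB : SB n) :
    ∀ φ, Test (Ann n 1) φ → (∀ x, 0 ≤ φ x) → ∀ L : ℝ,
      Tendsto (fun k => ∫ x, gsq (u k) x * ∑ i, pd i (pd i φ) x) atTop (𝓝 L) → 0 ≤ L := by
  classical
  obtain ⟨χ, hχ, hχ0, hχle, hχ1⟩ := exists_cutoff n
  have hst := hT.st
  have hsub35 : Ann n 3 ⊆ Ann n 5 :=
    (Ann_subset_CA (by norm_num : (3:ℝ) ≤ 4)).trans (CA_subset_Ann (by norm_num : (4:ℝ) < 5))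
  have hsub13 : Ann n 1 ⊆ Ann n 3 :=
    (Ann_subset_CA (by norm_num : (1:ℝ) ≤ 2)).trans (CA_subset_Ann (by norm_num : (2:ℝ) < 3))
  have hχ5 : Test (Ann n 5) χ := hχ.mono hsub35
  have hCE := hT.CE_nonneg
  have hCW := hT.CW_nonneg
  -- index all sequences
  let b : (Fin n × Fin n) ⊕ (Fin n × Fin n × Fin n) → ℕ → E n → ℝ := fun p k =>
    match p with
    | Sum.inl (i, j) => Pf χ (u k) i j
    | Sum.inr (i, j, l) => Vf χ (u k) (f k) i j l
  have hb : ∀ p k, MemLp (b p k) 2 volume := by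
    intro p k
    rcases p with ⟨i, j⟩ | ⟨i, j, l⟩
    · exact memLp_Pf (hst k).smooth hχ i j
    · exact memLp_Vf (hst k) hχ5 i j l
  have hbd : ∀ p k, ∫ x, b p k x ^ 2 ≤ max CE CW := by
    intro p k
    rcases p with ⟨i, j⟩ | ⟨i, j, l⟩
    · exact (hT.P_bd hχ hχ0 hχle i j k).trans (le_max_left _ _)
    · exact (hT.V_bd hχ hχ0 hχle i j l k).trans (le_max_right _ _)
  obtain ⟨σ, hσ, hw⟩ := extract Finset.univ b hb hbd
  choose w hwm hwl using fun p => hw p (Finset.mem_univ p)
  let S : Fin n → Fin n → E n → ℝ := fun i j => w (Sum.inl (i, j))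
  let V : Fin n → Fin n → Fin n → E n → ℝ := fun i j l => w (Sum.inr (i, j, l))
  let s : E n → ℝ := fun x => ∑ i, S i i x
  have hS2 : ∀ i j, MemLp (S i j) 2 volume := fun i j => hwm _
  have hV2 : ∀ i j l, MemLp (V i j l) 2 volume := fun i j l => hwm _
  have hs2 : MemLp s 2 volume := memLp_finsetSum _ fun i _ => hS2 i i
  have hSW : ∀ i j, WL (fun k => Pf χ (u (σ k)) i j) (S i j) := fun i j =>
    hwl (Sum.inl (i, j))
  have hVW : ∀ i j l, WL (fun k => Vf χ (u (σ k)) (f (σ k)) i j l) (V i j l) := fun i j l =>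
    hwl (Sum.inr (i, j, l))
  have hPm : ∀ i j k, MemLp (Pf χ (u (σ k)) i j) 2 volume := fun i j k =>
    memLp_Pf (hst _).smooth hχ i j
  have hVm : ∀ i j l k, MemLp (Vf χ (u (σ k)) (f (σ k)) i j l) 2 volume := fun i j l k =>
    memLp_Vf (hst _) hχ5 i j l
  have htm : ∀ k, MemLp (tf χ (u (σ k))) 2 volume := fun k => memLp_tf (hst _).smooth hχ
  -- strong convergence of `P`
  have hSS : ∀ i j, SL (fun k => Pf χ (u (σ k)) i j) (S i j) := by
    intro i j
    refine strong_of_weak (isCompact_CA n 4) _ _ (hPm i j) (hS2 i j) ?_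
      ⟨CE, fun k => hT.P_bd hχ hχ0 hχle i j _⟩ (hSW i j) ?_
    · intro k x hx
      unfold Pf
      rw [chi_zero hχ hx]; simp
    · intro ε hε
      obtain ⟨δ, hδ, h⟩ := hT.P_trans hPT hχ hχ0 hχle i j ε hε
      exact ⟨δ, hδ, hσ.tendsto_atTop.eventually h⟩
  -- convergence of `t`
  have htW : WL (fun k => tf χ (u (σ k))) s := by
    have h1 := WL.sum (Finset.univ : Finset (Fin n)) (b := fun i k => Pf χ (u (σ k)) i i)
      (b₀ := fun i => S i i) (fun i k => hPm i i k) (fun i => hS2 i i) (fun i => hSW i i)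
    have e : (fun k x => ∑ i, Pf χ (u (σ k)) i i x) = fun k => tf χ (u (σ k)) := by
      ext k x; exact sum_Pf x
    rw [e] at h1
    exact h1
  have htS : SL (fun k => tf χ (u (σ k))) s := by
    refine strong_of_weak (isCompact_CA n 4) _ _ htm hs2 ?_ ⟨CE, fun k => ?_⟩ htW ?_
    · intro k x hx
      unfold tf
      rw [chi_zero hχ hx]; simp
    · simp_rw [tf_sq]
      exact hT.chi_gsq hχ hχ0 hχle _
    · intro ε hε
      obtain ⟨δ, hδ, h⟩ := hT.t_trans hχ hχ0 hχle ε hε
      exact ⟨δ, hδ, hσ.tendsto_atTop.eventually h⟩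
  have htbd : ∀ k, ∫ x, tf χ (u (σ k)) x ^ 2 ≤ CE := by
    intro k
    simp_rw [tf_sq]
    exact hT.chi_gsq hχ hχ0 hχle _
  have hPbd : ∀ i j k, ∫ x, Pf χ (u (σ k)) i j x ^ 2 ≤ CE := fun i j k =>
    hT.P_bd hχ hχ0 hχle i j _
  have hVbd : ∀ i j l k, ∫ x, Vf χ (u (σ k)) (f (σ k)) i j l x ^ 2 ≤ CW := fun i j l k =>
    hT.V_bd hχ hχ0 hχle i j l _
  -- relations
  have hs0 : ∀ᵐ x, 0 ≤ s x := htW.nonneg hs2 fun k x => mul_nonneg (hχ0 x) (gr_nonneg _ _)
  have hsym : ∀ i j, S i j =ᵐ[volume] S j i := by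
    intro i j
    refine WL.unique (b := fun k => Pf χ (u (σ k)) i j) (hS2 i j) (hS2 j i) (hSW i j) ?_
    have e : (fun k => Pf χ (u (σ k)) i j) = fun k => Pf χ (u (σ k)) j i := by
      ext k x; unfold Pf; ring
    rw [e]
    exact hSW j i
  have hmin : ∀ i j k l, (fun x => S i j x * S k l x) =ᵐ[volume] fun x => S i l x * S k j x := by
    intro i j k l
    refine ae_eq_of_bdd ((hS2 i j).integrable_mul (hS2 k l)) ((hS2 i l).integrable_mul (hS2 k j))
      fun z hz hz1 => ?_
    have h1 := prod_limit (fun m => hPm i j m) (hS2 i j) (fun m => hPm k l m) (hS2 k l)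
      (hSS i j) (hSW k l) (hPbd k l) hz hz1
    have h2 := prod_limit (fun m => hPm i l m) (hS2 i l) (fun m => hPm k j m) (hS2 k j)
      (hSS i l) (hSW k j) (hPbd k j) hz hz1
    have e : (fun m => ∫ x, Pf χ (u (σ m)) i j x * Pf χ (u (σ m)) k l x * z x) =
        fun m => ∫ x, Pf χ (u (σ m)) i l x * Pf χ (u (σ m)) k j x * z x := by
      ext m; congr 1; ext x; unfold Pf; ring
    rw [e] at h1
    exact tendsto_nhds_unique h1 h2
  have hVs : ∀ k i l, V k i l =ᵐ[volume] V i k l := by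
    intro k i l
    refine WL.unique (b := fun m => Vf χ (u (σ m)) (f (σ m)) k i l) (hV2 k i l) (hV2 i k l)
      (hVW k i l) ?_
    have e : (fun m => Vf χ (u (σ m)) (f (σ m)) k i l) =
        fun m => Vf χ (u (σ m)) (f (σ m)) i k l := by
      ext m x; unfold Vf; rw [Wt_symm (hst _).smooth]
    rw [e]
    exact hVW i k l
  have hVt : ∀ l, (fun x => ∑ k, V k k l x) =ᵐ[volume] fun _ => (0 : ℝ) := by
    intro l
    have h1 := WL.sum (Finset.univ : Finset (Fin n))
      (b := fun i k => Vf χ (u (σ k)) (f (σ k)) i i l)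
      (b₀ := fun i => V i i l) (fun i k => hVm i i l k) (fun i => hV2 i i l) (fun i => hVW i i l)
    refine WL.unique (memLp_finsetSum _ fun i _ => hV2 i i l) MemLp.zero' h1 ?_
    have e : (fun k x => ∑ i, Vf χ (u (σ k)) (f (σ k)) i i l x) = fun _ _ => (0 : ℝ) := by
      ext k x
      unfold Vf
      by_cases hx : x ∈ Ann n 5
      · have h2 := trace_Wt_mul_nu (hst (σ k)) hx l
        have h3 : ∑ i, χ x * Wt (f (σ k)) (u (σ k)) i i x * nu (u (σ k)) l x =
            χ x * ((∑ i, Wt (f (σ k)) (u (σ k)) i i x) * nu (u (σ k)) l x) := by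
          rw [Finset.sum_mul, Finset.mul_sum]
          exact Finset.sum_congr rfl fun i _ => by ring
        rw [h3, h2, mul_zero]
      · rw [hχ5.zero_of_notMem hx]; simp
    rw [e]
    intro z hz
    simp
  have hVS : ∀ k i l, (fun x => ∑ m, V k i m x * S m l x) =ᵐ[volume] fun x => s x * V k i l x := by
    intro k i l
    refine ae_eq_of_bdd (integrable_finsetSum _ fun m _ => (hV2 k i m).integrable_mul (hS2 m l))
      (hs2.integrable_mul (hV2 k i l)) fun z hz hz1 => ?_
    have h1 : Tendsto (fun r => ∑ m, ∫ x, Pf χ (u (σ r)) m l x *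
        Vf χ (u (σ r)) (f (σ r)) k i m x * z x) atTop
        (𝓝 (∑ m, ∫ x, S m l x * V k i m x * z x)) :=
      tendsto_finsetSum _ fun m _ => prod_limit (fun r => hPm m l r) (hS2 m l)
        (fun r => hVm k i m r) (hV2 k i m) (hSS m l) (hVW k i m) (hVbd k i m) hz hz1
    have h2 := prod_limit htm hs2 (fun r => hVm k i l r) (hV2 k i l) htS (hVW k i l)
      (hVbd k i l) hz hz1
    have e : (fun r => ∑ m, ∫ x, Pf χ (u (σ r)) m l x *
        Vf χ (u (σ r)) (f (σ r)) k i m x * z x) =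
        fun r => ∫ x, tf χ (u (σ r)) x * Vf χ (u (σ r)) (f (σ r)) k i l x * z x := by
      ext r
      rw [← integral_finsetSum]
      · congr 1; ext x
        unfold Pf Vf tf
        have : ∀ m, χ x * gr (u (σ r)) x * nu (u (σ r)) m x * nu (u (σ r)) l x *
            (χ x * Wt (f (σ r)) (u (σ r)) k i x * nu (u (σ r)) m x) * z x =
            (χ x * (χ x * Wt (f (σ r)) (u (σ r)) k i x * nu (u (σ r)) l x) * z x) *
              (nu (u (σ r)) m x * pd m (u (σ r)) x) := by
          intro m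
          rw [← gr_mul_nu (u (σ r)) m x]; ring
        simp_rw [this]
        rw [← Finset.mul_sum, sum_nu_mul_pd]
        ring
      · intro m _
        exact integrable_mul3 (hPm m l r) (hVm k i m r) hz hz1
    rw [e] at h1
    have h3 := tendsto_nhds_unique h1 h2
    rw [← h3, ← integral_finsetSum]
    · congr 1; ext x
      rw [Finset.sum_mul]
      exact Finset.sum_congr rfl fun m _ => by ring
    · intro m _
      exact integrable_mul3 (hS2 m l) (hV2 k i m) hz hz1
  have hder : ∀ φ, Test (Ann n 1) φ → ∀ i j k, ∫ x, s x * S i j x * pd k φ x =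
      - ∫ x, s x * (V k i j x + V k j i x) * φ x := by
    intro φ hφ i j k
    obtain ⟨M, hM⟩ := hφ.continuous.bounded_above_of_compact_support hφ.compact
    have hM' : ∀ x, |φ x| ≤ M := fun x => by rw [← Real.norm_eq_abs]; exact hM x
    obtain ⟨M₂, hM₂⟩ := (hφ.pd k).continuous.bounded_above_of_compact_support (hφ.pd k).compact
    have hM₂' : ∀ x, |pd k φ x| ≤ M₂ := fun x => by rw [← Real.norm_eq_abs]; exact hM₂ x
    have h1 := prod_limit htm hs2 (fun r => hPm i j r) (hS2 i j) htS (hSW i j) (hPbd i j)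
      (hφ.pd k).continuous.measurable hM₂'
    have h2 := prod_limit htm hs2 (fun r => hVm k i j r) (hV2 k i j) htS (hVW k i j)
      (hVbd k i j) hφ.continuous.measurable hM'
    have h3 := prod_limit htm hs2 (fun r => hVm k j i r) (hV2 k j i) htS (hVW k j i)
      (hVbd k j i) hφ.continuous.measurable hM'
    have hφ4 : Test (Ann n 4) φ := hφ.mono (hsub13.trans ((Ann_subset_CA
      (by norm_num : (3:ℝ) ≤ 3)).trans (CA_subset_Ann (by norm_num : (3:ℝ) < 4))))
    have h4 := (hT.cub k i j φ hφ4).comp hσ.tendsto_atTop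
    have h5 := ((h2.neg).sub h3).add (h4.const_mul 2)
    have e : ∀ r, ∫ x, tf χ (u (σ r)) x * Pf χ (u (σ r)) i j x * pd k φ x =
        - (∫ x, tf χ (u (σ r)) x * Vf χ (u (σ r)) (f (σ r)) k i j x * φ x)
        - (∫ x, tf χ (u (σ r)) x * Vf χ (u (σ r)) (f (σ r)) k j i x * φ x)
        + 2 * ∫ x, f (σ r) (u (σ r) x) * gr (u (σ r)) x * nu (u (σ r)) k x * nu (u (σ r)) i x *
            nu (u (σ r)) j x * φ x := fun r =>
      level_der (hst (σ r)) hχ5 hχ1 hφ (hsub13.trans hsub35) i j k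
    have h6 := tendsto_nhds_unique h1 (h5.congr fun r => (e r).symm)
    rw [h6]
    have I1 := integrable_mul3 hs2 (hV2 k i j) hφ.continuous.measurable hM'
    have I2 := integrable_mul3 hs2 (hV2 k j i) hφ.continuous.measurable hM'
    have e2 : ∫ x, s x * (V k i j x + V k j i x) * φ x =
        (∫ x, s x * V k i j x * φ x) + ∫ x, s x * V k j i x * φ x := by
      rw [← integral_add I1 I2]
      congr 1; ext x; ring
    rw [e2]; ring
  -- conclusion
  intro φ hφ hφ0 L hL
  have key := hB (isOpen_Ann n 1) s S V hs2 hS2 hV2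
    (hs0.mono fun x hx _ => hx) (fun i j => (hsym i j).mono fun x hx _ => hx)
    (ae_of_all _ fun x _ => rfl) (fun i j k l => (hmin i j k l).mono fun x hx _ => hx)
    (fun k i l => (hVs k i l).mono fun x hx _ => hx)
    (fun l => (hVt l).mono fun x hx _ => hx)
    (fun k i l => (hVS k i l).mono fun x hx _ => hx) hder φ hφ hφ0
  have hlapc : Continuous (fun x => ∑ i, pd i (pd i φ) x) :=
    continuous_finsetSum _ fun i _ => ((hφ.pd i).pd i).continuous
  have hlaps : HasCompactSupport (fun x => ∑ i, pd i (pd i φ) x) := by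
    refine hφ.compact.of_isClosed_subset (isClosed_tsupport _) (closure_minimal ?_
      (isClosed_tsupport _))
    intro x hx
    by_contra hcon
    apply hx
    apply Finset.sum_eq_zero
    intro i _
    exact image_eq_zero_of_notMem_tsupport fun h' =>
      hcon (tsupport_pd_subset i φ (tsupport_pd_subset i _ h'))
  obtain ⟨M, hM⟩ := hlapc.bounded_above_of_compact_support hlaps
  have hM' : ∀ x, |∑ i, pd i (pd i φ) x| ≤ M := fun x => by rw [← Real.norm_eq_abs]; exact hM x
  have h1 := prod_limit htm hs2 htm hs2 htS htW htbd hlapc.measurable hM'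
  have e1 : ∀ r, ∫ x, tf χ (u (σ r)) x * tf χ (u (σ r)) x * ∑ i, pd i (pd i φ) x =
      ∫ x, gsq (u (σ r)) x * ∑ i, pd i (pd i φ) x := by
    intro r
    congr 1; ext x
    by_cases hx : x ∈ Ann n 1
    · have : tf χ (u (σ r)) x * tf χ (u (σ r)) x = gsq (u (σ r)) x := by
        rw [← sq, tf_sq, hχ1 x hx]; ring
      rw [this]
    · have : ∑ i, pd i (pd i φ) x = 0 :=
        Finset.sum_eq_zero fun i _ => ((hφ.pd i).pd i).zero_of_notMem hx
      rw [this]; simp
  simp_rw [e1] at h1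
  have h2 := tendsto_nhds_unique h1 (hL.comp hσ.tendsto_atTop)
  rw [← h2]
  refine le_of_le_of_eq key ?_
  congr 1; ext x; ring

end SW

end Pool.Agent.H94.Stab
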