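import Pool.Agent.H58.Stab.M11
import Pool.Agent.H46.Stab.M5
import Pool.Agent.H69.Stab.M10

/-!
# Theorem B of MP_de3e90_an from the normalisation lemma `b_norm`
-/

set_option autoImplicit false

open MeasureTheory Set Filter Topology
open scoped ContDiff

namespace Pool.Agent.H94.Stab

namespace SW

variable {n : ℕ} {u : ℕ → E n → ℝ} {f F : ℕ → ℝ → ℝ}

theorem b_trans_of_norm (hn : 3 ≤ n) (h : BadSeq u f F) (hnorm : ∃ κ : ℕ → ℝ,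
      ∀ K : Set (E n), IsCompact K → (0 : E n) ∉ K → ∀ ρ > 0, (∀ x ∈ K, 2 * ρ < ‖x‖) →
        ∀ ε > 0, ∀ᶠ k in atTop, ∀ x ∈ K, |mol ρ (fun y => F k (u k y) - κ k) x| ≤ ε)
    {K : Set (E n)} (hK : IsCompact K) (h0 : (0 : E n) ∉ K) :
    ∀ ε > 0, ∃ δ > 0, ∀ᶠ k in atTop, ∀ y : E n, ‖y‖ ≤ δ →
      ∫ x in K, |gsq (u k) (x + y) - gsq (u k) x| ≤ ε :=
  H69.b_trans'' hn (fun {Ω f F u} a b {g w} c d e => transport a b c d e) h
    ⟨fun hK h0 => b_energy hn h hK h0, fun hK h0 => b_W hn h hK h0,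
      fun hK h0 => b_c hn h hK h0⟩ hnorm hK h0

theorem theoremB_of_norm (hn : 5 ≤ n) (h : BadSeq u f F) (hnorm : ∃ κ : ℕ → ℝ,
      ∀ K : Set (E n), IsCompact K → (0 : E n) ∉ K → ∀ ρ > 0, (∀ x ∈ K, 2 * ρ < ‖x‖) →
        ∀ ε > 0, ∀ᶠ k in atTop, ∀ x ∈ K, |mol ρ (fun y => F k (u k y) - κ k) x| ≤ ε) : False :=
  theoremB_of hn h (b_trans_of_norm (by omega) h hnorm (SW.isCompact_CA n 4)
    (SW.zero_notMem_CA n 4))

end SW

end Pool.Agent.H94.Stab
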